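import Pool.Agent.Lib.MP_ca0971_gt.OT.Loc.VSpot
import Pool.Agent.Lib.MP_ca0971_gt.OT.Loc.TSpot
import Pool.Agent.Lib.MP_ca0971_gt.OT.Loc.Norm
import Pool.Agent.Lib.MP_ca0971_gt.OT.DiaS

/-!
# Project OT, Cor: common lemmas of the two corner files
-/

set_option autoImplicit false

namespace Pool.Agent.Lib.MP_ca0971_gt.OT

open Finset Filter Topology

/-! ### Plane geometry -/

theorem cr_lin_unique {y u : ℂ} (h : dt y u ≠ 0) {a b a' b' : ℝ}
    (e : (a : ℂ) * y + (b : ℂ) * u = (a' : ℂ) * y + (b' : ℂ) * u) : a = a' ∧ b = b' := by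
  have e1 := congrArg Complex.re e
  have e2 := congrArg Complex.im e
  simp at e1 e2
  unfold dt at h
  constructor
  · have : (a - a') * (y.re * u.im - y.im * u.re) = 0 := by
      linear_combination u.im * e1 - u.re * e2
    rcases mul_eq_zero.1 this with h1 | h1
    · linarith
    · exact absurd h1 h
  · have : (b - b') * (y.re * u.im - y.im * u.re) = 0 := by
      linear_combination y.re * e2 - y.im * e1
    rcases mul_eq_zero.1 this with h1 | h1
    · linarith
    · exact absurd h1 h

theorem cr_lin_exists {y u : ℂ} (h : dt y u ≠ 0) (p : ℂ) :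
    ∃ a b : ℝ, p = (a : ℂ) * y + (b : ℂ) * u := by
  refine ⟨dt p u / dt y u, dt y p / dt y u, ?_⟩
  apply Complex.ext
  · simp only [Complex.add_re, Complex.mul_re, Complex.ofReal_re, Complex.ofReal_im, zero_mul,
      sub_zero]
    have e : dt p u / dt y u * y.re + dt y p / dt y u * u.re = p.re * (dt y u / dt y u) := by
      unfold dt
      ring
    rw [e, div_self h, mul_one]
  · simp only [Complex.add_im, Complex.mul_im, Complex.ofReal_re, Complex.ofReal_im, zero_mul,
      add_zero]
    have e : dt p u / dt y u * y.im + dt y p / dt y u * u.im = p.im * (dt y u / dt y u) := by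
      unfold dt
      ring
    rw [e, div_self h, mul_one]

/-- Points of a triangle. -/
theorem cr_hull_mem {A B C : ℂ} {a b : ℝ} (ha : 0 ≤ a) (hb : 0 ≤ b) (hab : a + b ≤ 1) :
    A + ((a : ℂ) * (B - A) + (b : ℂ) * (C - A)) ∈ convexHull ℝ ({A, B, C} : Set ℂ) := by
  have hA : A ∈ convexHull ℝ ({A, B, C} : Set ℂ) := subset_convexHull ℝ _ (by simp)
  have hB : B ∈ convexHull ℝ ({A, B, C} : Set ℂ) := subset_convexHull ℝ _ (by simp)
  have hC : C ∈ convexHull ℝ ({A, B, C} : Set ℂ) := subset_convexHull ℝ _ (by simp)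
  have hc := convex_convexHull ℝ ({A, B, C} : Set ℂ)
  rcases eq_or_lt_of_le (add_nonneg ha hb) with h | h
  · have h1 : a = 0 := by linarith
    have h2 : b = 0 := by linarith
    rw [h1, h2]
    simpa using hA
  · have hQ := hc hB hC (div_nonneg ha h.le) (div_nonneg hb h.le) (by
      rw [← add_div, div_self h.ne'])
    have hR := hc hA hQ (sub_nonneg.2 hab) h.le (by ring)
    convert hR using 1
    simp only [Complex.real_smul, Complex.ofReal_sub, Complex.ofReal_one, Complex.ofReal_add,
      Complex.ofReal_div]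
    have : (a : ℂ) + (b : ℂ) ≠ 0 := by
      rw [← Complex.ofReal_add]
      exact Complex.ofReal_ne_zero.2 h.ne'
    field_simp
    ring

/-- Two vectors with a nonzero determinant: the quotient is in the slit plane. -/
theorem cr_slit_of_dt {x y : ℂ} (h : dt x y ≠ 0) : y / x ∈ Complex.slitPlane := by
  right
  rw [Complex.div_im]
  have hx : x ≠ 0 := by
    intro e
    rw [e] at h
    unfold dt at h
    simp at h
  have hn : Complex.normSq x ≠ 0 := Complex.normSq_pos.2 hx |>.ne'
  have e : y.im * x.re / Complex.normSq x - y.re * x.im / Complex.normSq x =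
      dt x y / Complex.normSq x := by
    unfold dt
    ring
  rw [e]
  exact div_ne_zero h hn

/-- A nonpositive multiple is not in the slit plane. -/
theorem cr_slit_ne_neg {x y : ℂ} {t : ℝ} (h : y / x ∈ Complex.slitPlane) (ht : t ≤ 0) :
    y ≠ (t : ℂ) * x := by
  intro e
  rw [e] at h
  by_cases hx : x = 0
  · rw [hx, mul_zero, zero_div] at h
    exact Complex.zero_notMem_slitPlane h
  · rw [mul_div_cancel_right₀ _ hx, Complex.ofReal_mem_slitPlane] at h
    linarith

theorem cr_slit_ne_zero {x y : ℂ} (h : y / x ∈ Complex.slitPlane) : x ≠ 0 ∧ y ≠ 0 := by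
  constructor
  · intro e
    rw [e, div_zero] at h
    exact Complex.zero_notMem_slitPlane h
  · intro e
    rw [e, zero_div] at h
    exact Complex.zero_notMem_slitPlane h

/-- The quotient only depends on directions. -/
theorem cr_turn_smul {r : ℝ} (hr : 0 < r) (z : ℂ) : turn ((r : ℂ) * z) = turn z := by
  unfold turn
  rw [Complex.arg_real_mul z hr]

theorem cr_turn_one : turn 1 = 0 := by
  unfold turn
  rw [Complex.arg_one, zero_div]

variable {I : Type} {σ : Equiv.Perm I}

theorem cr_mp_mem_sg {i j : I} (v : I → E) (h0 : 0 ≤ par σ v i j) (h1 : par σ v i j ≤ 1) :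
    mp σ v i j ∈ sg σ v i := by
  unfold mp sg
  refine ⟨1 - par σ v i j, par σ v i j, by linarith, h0, by ring, ?_⟩
  unfold dd
  simp only [Complex.real_smul, Complex.ofReal_sub, Complex.ofReal_one]
  ring

theorem Crs.cr_mem {v : I → E} {i j : I} (h : Crs σ v i j) :
    mp σ v i j ∈ sg σ v i ∧ mp σ v i j ∈ sg σ v j :=
  ⟨cr_mp_mem_sg v h.2.2.1.le h.2.2.2.1.le, by
    rw [mp_symm v h.2.1]
    exact cr_mp_mem_sg v h.2.2.2.2.1.le h.2.2.2.2.2.le⟩

/-! ### The polygon with a new vertex -/

section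

variable [DecidableEq I] (v : I → E) (B : E) (i0 : I)

theorem cr_none : insS σ i0 none = some (σ i0) := by
  unfold insS
  simp

theorem cr_self : insS σ i0 (some i0) = none := by
  unfold insS
  simp

theorem cr_some {j : I} (h : j ≠ i0) : insS σ i0 (some j) = some (σ j) := by
  unfold insS
  rw [Equiv.Perm.mul_apply, Equiv.optionCongr_apply, Option.map_some]
  refine Equiv.swap_apply_of_ne_of_ne (by simp) ?_
  intro e
  exact h (σ.injective (Option.some.inj e))

theorem cr_ddn : dd (insS σ i0) (insV v B) none = (v (σ i0)).1 - B.1 := by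
  unfold dd
  rw [cr_none]
  rfl

theorem cr_dd0 : dd (insS σ i0) (insV v B) (some i0) = B.1 - (v i0).1 := by
  unfold dd
  rw [cr_self]
  rfl

theorem cr_dd {j : I} (h : j ≠ i0) : dd (insS σ i0) (insV v B) (some j) = dd σ v j := by
  unfold dd
  rw [cr_some i0 h]
  rfl

theorem cr_dh {j : I} (h : j ≠ i0) : dh (insS σ i0) (insV v B) (some j) = dh σ v j := by
  unfold dh
  rw [cr_some i0 h]
  rfl

theorem cr_par {i j : I} (hi : i ≠ i0) (hj : j ≠ i0) :
    par (insS σ i0) (insV v B) (some i) (some j) = par σ v i j := by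
  unfold par
  rw [cr_dd v B i0 hi, cr_dd v B i0 hj]
  rfl

theorem cr_ht {i j : I} (hi : i ≠ i0) (hj : j ≠ i0) :
    ht (insS σ i0) (insV v B) (some i) (some j) = ht σ v i j := by
  unfold ht
  rw [cr_par v B i0 hi hj, cr_dh v B i0 hi]
  rfl

theorem cr_sg {j : I} (h : j ≠ i0) : sg (insS σ i0) (insV v B) (some j) = sg σ v j := by
  unfold sg
  rw [cr_some i0 h]
  rfl

theorem cr_sg0 : sg (insS σ i0) (insV v B) (some i0) = segment ℝ (v i0).1 B.1 := by
  unfold sg
  rw [cr_self]
  rfl

theorem cr_sgn : sg (insS σ i0) (insV v B) none = segment ℝ B.1 (v (σ i0)).1 := by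
  unfold sg
  rw [cr_none]
  rfl

theorem cr_adj {i j : I} (hi : i ≠ i0) (hj : j ≠ i0) :
    Adj (insS σ i0) (some i) (some j) ↔ Adj σ i j := by
  unfold Adj
  rw [cr_some i0 hi, cr_some i0 hj, Option.some_inj, Option.some_inj, Option.some_inj]

theorem cr_crs {i j : I} (hi : i ≠ i0) (hj : j ≠ i0) :
    Crs (insS σ i0) (insV v B) (some i) (some j) ↔ Crs σ v i j := by
  unfold Crs
  rw [cr_adj i0 hi hj, cr_dd v B i0 hi, cr_dd v B i0 hj, cr_par v B i0 hi hj, cr_par v B i0 hj hi]

theorem cr_adj0n : Adj (insS σ i0) (some i0) none := Or.inr (Or.inl (cr_self i0).symm)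

theorem cr_adjn : Adj (insS σ i0) none (some (σ i0)) := Or.inr (Or.inl (cr_none i0).symm)

theorem cr_adj0 {a : I} (ha : a ≠ i0) (h : σ a = i0) : Adj (insS σ i0) (some a) (some i0) :=
  Or.inr (Or.inl (by rw [cr_some i0 ha, h]))

end

/-! ### Turning over two free edges -/

section

variable [Fintype I] [DecidableEq I]

/-- The turning can be moved over two consecutive edges without crossings. -/
theorem Dia.Z_cr_free2 (σ : Equiv.Perm I) (N : ℕ) (D D' : Dia I) (hD : D.Ok) {i j k : I}
    (h1 : σ i = j) (h2 : σ j = k) (hij : i ≠ j) (hik : i ≠ k) (hjk : j ≠ k)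
    (hj : ∀ l, ¬ D.Pas j l) (hk : ∀ l, ¬ D.Pas k l) (hC : D'.C = D.C) (hp : D'.pos = D.pos)
    (hep : D'.ep = D.ep) (hb : D'.b = D.b)
    (hth : ∀ a, a ≠ i → a ≠ j → a ≠ k → D'.th a = D.th a)
    (hsum : D'.th i + D'.th j + D'.th k = D.th i + D.th j + D.th k) : D'.Z σ N = D.Z σ N := by
  classical
  have ok : ∀ t : I → ℝ, Dia.Ok ⟨D.C, D.pos, t, D.ep, D.b⟩ := fun t =>
    ⟨hD.irr, hD.asym, fun i j k h1 h2 => hD.inj i j k h1 h2, hD.sgn⟩
  have e1 : Dia.Z ⟨D.C, D.pos, fun a => if a = k then D'.th k else if a = j then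
      D.th j + D.th k - D'.th k else D.th a, D.ep, D.b⟩ σ N = D.Z σ N := by
    refine Dia.Z_free σ N D _ hD j (by rw [h2]; exact hjk.symm) (by rw [h2]; exact hk) rfl rfl rfl
      rfl ?_ ?_
    · intro a ha ha'
      rw [h2] at ha'
      simp only
      rw [if_neg ha', if_neg ha]
    · rw [h2]
      simp only [if_neg hjk, if_true]
      ring
  rw [← e1]
  refine Dia.Z_free σ N _ D' (ok _) i (by rw [h1]; exact hij.symm) (by
    rw [h1]
    exact fun l hl => hj l hl) hC hp hep hb ?_ ?_
  · intro a ha ha'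
    rw [h1] at ha'
    simp only
    by_cases hak : a = k
    · rw [if_pos hak, hak]
    · rw [if_neg hak, if_neg ha']
      exact hth a ha ha' hak
  · rw [h1]
    simp only [if_neg hik, if_neg hij, if_neg hjk, if_true]
    linarith

end

/-! ### Genericity and the state sum after the insertion -/

section

variable [Fintype I] [DecidableEq I]

/-- The conditions on the new vertex `B` on the edge `i0`: `P` is one of the two new edges, `Q` an old
edge, and `P`, `Q` is the only possible new crossing. -/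
structure NewV (σ : Equiv.Perm I) (v : I → E) (i0 : I) (B : E) (P : Option I) (q : I) : Prop where
  gen : Gen σ v
  hi : σ i0 ≠ i0
  s1 : (B.1 - (v i0).1) / dd σ v (σ.symm i0) ∈ Complex.slitPlane
  s2 : ((v (σ i0)).1 - B.1) / (B.1 - (v i0).1) ∈ Complex.slitPlane
  s3 : dd σ v (σ i0) / ((v (σ i0)).1 - B.1) ∈ Complex.slitPlane
  q0 : q ≠ i0
  n0 : ∀ j, ¬ Crs σ v i0 j
  n1 : ∀ j, Crs (insS σ i0) (insV v B) (some i0) j → some i0 = P ∧ j = some q
  n2 : ∀ j, Crs (insS σ i0) (insV v B) none j → none = P ∧ j = some q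
  tr : ∀ j, Crs (insS σ i0) (insV v B) (some q) j → Crs (insS σ i0) (insV v B) (some q) P →
    j ≠ P → par (insS σ i0) (insV v B) (some q) j ≠ par (insS σ i0) (insV v B) (some q) P
  hh : Crs (insS σ i0) (insV v B) P (some q) →
    ht (insS σ i0) (insV v B) P (some q) ≠ ht (insS σ i0) (insV v B) (some q) P
  v1 : ∀ i, i ≠ i0 → (v i).1 ∉ segment ℝ (v i0).1 B.1
  v2 : ∀ i, i ≠ σ i0 → (v i).1 ∉ segment ℝ B.1 (v (σ i0)).1
  v3 : ∀ j, j ≠ i0 → B.1 ∉ sg σ v j

variable {v : I → E} {i0 : I} {B : E} {P : Option I} {q : I}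

omit [Fintype I] in
theorem NewV.a0 (h : NewV σ v i0 B P q) : σ.symm i0 ≠ i0 := by
  intro e
  apply h.hi
  conv_lhs => rw [← e]
  exact σ.apply_symm_apply i0

omit [Fintype I] in
/-- A crossing with an old edge. -/
theorem NewV.old (h : NewV σ v i0 B P q) {x y : Option I} (hc : Crs (insS σ i0) (insV v B) x y) :
    (x = P ∧ y = some q) ∨ (x = some q ∧ y = P) ∨
      ∃ i j, x = some i ∧ y = some j ∧ i ≠ i0 ∧ j ≠ i0 ∧ Crs σ v i j := by
  rcases x with _ | i
  · have := h.n2 _ hc
    exact Or.inl this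
  · by_cases hi : i = i0
    · subst hi
      exact Or.inl (h.n1 _ hc)
    · rcases y with _ | j
      · have := h.n2 _ hc.symm'
        exact Or.inr (Or.inl ⟨this.2, this.1⟩)
      · by_cases hj : j = i0
        · subst hj
          have := h.n1 _ hc.symm'
          exact Or.inr (Or.inl ⟨this.2, this.1⟩)
        · exact Or.inr (Or.inr ⟨i, j, rfl, rfl, hi, hj, (cr_crs v B i0 hi hj).1 hc⟩)

omit [Fintype I] in
theorem NewV.gen' (h : NewV σ v i0 B P q) (hP : P = some i0 ∨ P = none) :
    Gen (insS σ i0) (insV v B) where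
  slit := by
    rintro (_ | i)
    · rw [cr_none, cr_dd v B i0 h.hi, cr_ddn]
      exact h.s3
    · by_cases hi : i = i0
      · subst hi
        rw [cr_self, cr_ddn, cr_dd0]
        exact h.s2
      · rw [cr_some i0 hi, cr_dd v B i0 hi]
        by_cases hs : σ i = i0
        · rw [hs, cr_dd0]
          have : i = σ.symm i0 := by rw [← hs, Equiv.symm_apply_apply]
          rw [this]
          exact h.s1
        · rw [cr_dd v B i0 hs]
          exact h.gen.slit i
  ver := by
    rintro (_ | i) (_ | j) h1 h2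
    · exact absurd rfl h1
    · have hj : j ≠ i0 := by
        intro e
        subst e
        exact h2 (cr_self j)
      rw [cr_sg v B i0 hj]
      exact h.v3 j hj
    · rw [cr_sgn]
      refine h.v2 i ?_
      intro e
      rw [cr_none] at h2
      exact h2 (by rw [e])
    · by_cases hj : j = i0
      · subst hj
        rw [cr_sg0]
        exact h.v1 i fun e => h1 (by rw [e])
      · rw [cr_sg v B i0 hj]
        rw [cr_some i0 hj] at h2
        exact h.gen.ver i j (fun e => h1 (by rw [e])) (fun e => h2 (by rw [e]))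
  trp := by
    intro x y z h1 h2 h3
    have hPq : P ≠ some q := by
      rcases hP with e | e
      · rw [e]
        intro e'
        exact h.q0 (Option.some.inj e').symm
      · rw [e]
        simp
    rcases h.old h1 with ⟨e1, e2⟩ | ⟨e1, e2⟩ | ⟨i, j, e1, e2, hi, hj, hc⟩
    · rcases h.old h2 with ⟨e3, e4⟩ | ⟨e3, e4⟩ | ⟨i', k, e3, e4, hi', hk, hc'⟩
      · rw [e2, e4]
      · exact absurd (e1.symm.trans e3) hPq
      · exfalso
        rw [e1] at e3
        rcases hP with e | e
        · rw [e] at e3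
          exact hi' (Option.some.inj e3).symm
        · rw [e] at e3
          exact absurd e3 (by simp)
    · subst e1
      subst e2
      by_contra hne
      exact h.tr z h2 h1 (Ne.symm hne) h3.symm
    · rcases h.old h2 with ⟨e3, e4⟩ | ⟨e3, e4⟩ | ⟨i', k, e3, e4, hi', hk, hc'⟩
      · exfalso
        rw [e1] at e3
        rcases hP with e | e
        · rw [e] at e3
          exact hi (Option.some.inj e3)
        · rw [e] at e3
          exact absurd e3 (by simp)
      · rw [e3] at h1 h2 h3
        rw [e4] at h2 h3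
        by_contra hne
        rw [e4] at hne
        exact h.tr y h1 h2 hne h3
      · subst e1
        subst e2
        subst e4
        have := Option.some.inj e3
        subst this
        rw [cr_par v B i0 hi hj, cr_par v B i0 hi hk] at h3
        rw [h.gen.trp i j k hc hc' h3]
  hgt := by
    intro x y h1
    rcases h.old h1 with ⟨e1, e2⟩ | ⟨e1, e2⟩ | ⟨i, j, e1, e2, hi, hj, hc⟩
    · subst e1
      subst e2
      exact h.hh h1
    · subst e1
      subst e2
      exact (h.hh h1.symm').symm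
    · subst e1
      subst e2
      rw [cr_ht v B i0 hi hj, cr_ht v B i0 hj hi]
      exact h.gen.hgt i j hc

end

/-- A smaller set of crossings. -/
theorem Dia.Ok.cr_sub {J : Type} {D : Dia J} (hD : D.Ok) {C : Finset (J × J)} (hC : C ⊆ D.C)
    (t : J → ℝ) : Dia.Ok ⟨C, D.pos, t, D.ep, D.b⟩ where
  irr := fun i hi => hD.irr i (hC hi)
  asym := fun i j h1 h2 => hD.asym i j (hC h1) (hC h2)
  inj := fun i j k h1 h2 h3 => hD.inj i j k
    (h1.imp (fun h => hC h) fun h => hC h) (h2.imp (fun h => hC h) fun h => hC h) h3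
  sgn := fun i j h => hD.sgn i j (hC h)

section

variable [Fintype I] [DecidableEq I] {v : I → E} {i0 : I} {B : E} {P : Option I} {q : I}

theorem cr_mem_dia {J : Type} [Fintype J] {τ : Equiv.Perm J} {w : J → E} {x y : J} :
    (x, y) ∈ (dia τ w).C ↔ Crs τ w x y ∧ ht τ w y x < ht τ w x y := by
  unfold dia
  simp

theorem cr_pas_crs {J : Type} [Fintype J] {τ : Equiv.Perm J} {w : J → E} {x y : J}
    (h : (dia τ w).Pas x y) : Crs τ w x y := by
  rcases h with h | h
  · exact (cr_mem_dia.1 h).1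
  · exact (cr_mem_dia.1 h).1.symm'

/-- The old crossings with the new directions. -/
theorem NewV.Z_old (h : NewV σ v i0 B P q) (hP : P = some i0 ∨ P = none)
    {C : Finset (Option I × Option I)} (hsub : C ⊆ (dia (insS σ i0) (insV v B)).C)
    (hC : ∀ x y, (x, y) ∈ C ↔ ∃ i j, x = some i ∧ y = some j ∧ (i, j) ∈ (dia σ v).C)
    (t : Option I → ℝ) (ht1 : ∀ a, a ≠ i0 → σ a ≠ i0 → t (some a) = (dia σ v).th a)
    (ht2 : t (some (σ.symm i0)) + t (some i0) + t none =
      (dia σ v).th (σ.symm i0) + (dia σ v).th i0) (N : ℕ) :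
    Dia.Z ⟨C, (dia (insS σ i0) (insV v B)).pos, t, (dia (insS σ i0) (insV v B)).ep,
      (dia (insS σ i0) (insV v B)).b⟩ (insS σ i0) N = (dia σ v).Z σ N ∧
    Dia.w ⟨C, (dia (insS σ i0) (insV v B)).pos, t, (dia (insS σ i0) (insV v B)).ep,
      (dia (insS σ i0) (insV v B)).b⟩ = (dia σ v).w := by
  have ok' := dia_ok (h.gen' hP)
  have hni : ∀ {x y : Option I}, (x, y) ∈ C → ∃ i j, x = some i ∧ y = some j ∧ i ≠ i0 ∧ j ≠ i0 ∧
      (i, j) ∈ (dia σ v).C := by
    intro x y hxy
    obtain ⟨i, j, e1, e2, hm⟩ := (hC x y).1 hxy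
    refine ⟨i, j, e1, e2, ?_, ?_, hm⟩
    · intro e
      subst e
      exact h.n0 j (cr_mem_dia.1 hm).1
    · intro e
      subst e
      exact h.n0 i (cr_mem_dia.1 hm).1.symm'
  set t0 : Option I → ℝ := fun x => x.elim ((dia σ v).th i0)
    (fun a => if a = i0 then 0 else (dia σ v).th a) with ht0
  have key := Dia.Z_ins σ N (dia σ v) ⟨C, (dia (insS σ i0) (insV v B)).pos, t0,
    (dia (insS σ i0) (insV v B)).ep, (dia (insS σ i0) (insV v B)).b⟩ (dia_ok h.gen) i0 (1 / 2)
    (by
      intro x y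
      constructor
      · intro hxy
        obtain ⟨i, j, e1, e2, hi, hj, hm⟩ := hni hxy
        subst e1
        subst e2
        exact ⟨hm, ⟨fun e => absurd (Option.some.inj e) hi, fun e => absurd e (by simp)⟩,
          ⟨fun e => absurd (Option.some.inj e) hj, fun e => absurd e (by simp)⟩⟩
      · rintro ⟨hm, -, -⟩
        refine (hC x y).2 ?_
        rcases x with _ | i
        · exact absurd (cr_mem_dia.1 hm).1 (h.n0 _)
        · rcases y with _ | j
          · exact absurd (cr_mem_dia.1 hm).1.symm' (h.n0 _)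
          · exact ⟨i, j, rfl, rfl, hm⟩)
    (by
      intro l hl
      exact absurd (cr_pas_crs hl) (h.n0 l))
    (by
      intro x y z hxy hxz
      have r : ∀ {x y : Option I}, Dia.Pas ⟨C, (dia (insS σ i0) (insV v B)).pos, t0,
          (dia (insS σ i0) (insV v B)).ep, (dia (insS σ i0) (insV v B)).b⟩ x y →
          ∃ i j, x = some i ∧ y = some j ∧ i ≠ i0 ∧ j ≠ i0 := by
        rintro x y (hxy | hxy)
        · obtain ⟨i, j, e1, e2, hi, hj, -⟩ := hni hxy
          exact ⟨i, j, e1, e2, hi, hj⟩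
        · obtain ⟨i, j, e1, e2, hi, hj, -⟩ := hni hxy
          exact ⟨j, i, e2, e1, hj, hi⟩
      obtain ⟨i, j, e1, e2, hi, hj⟩ := r hxy
      obtain ⟨i', k, e3, e4, hi', hk⟩ := r hxz
      subst e1
      subst e2
      subst e4
      show par (insS σ i0) (insV v B) (some i) (some j) <
        par (insS σ i0) (insV v B) (some i) (some k) ↔ par σ v i j < par σ v i k
      rw [cr_par v B i0 hi hj, cr_par v B i0 hi hk])
    (by
      intro x y hxy
      obtain ⟨i, j, e1, e2, hi, hj, -⟩ := hni hxy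
      subst e1
      subst e2
      show (if 0 < dt (dd (insS σ i0) (insV v B) (some i)) (dd (insS σ i0) (insV v B) (some j))
        then (1 : ℝ) else -1) = if 0 < dt (dd σ v i) (dd σ v j) then (1 : ℝ) else -1
      rw [cr_dd v B i0 hi, cr_dd v B i0 hj])
    (by
      intro x y hxy
      obtain ⟨i, j, e1, e2, hi, hj, -⟩ := hni hxy
      subst e1
      subst e2
      show turn (dd (insS σ i0) (insV v B) (some j) / dd (insS σ i0) (insV v B) (some i)) =
        turn (dd σ v j / dd σ v i)
      rw [cr_dd v B i0 hi, cr_dd v B i0 hj])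
    (by
      show (if i0 = i0 then (0 : ℝ) else (dia σ v).th i0) = 0
      rw [if_pos rfl])
    rfl
    (by
      intro a ha
      show (if a = i0 then (0 : ℝ) else (dia σ v).th a) = (dia σ v).th a
      rw [if_neg ha])
  refine ⟨?_, key.2⟩
  rw [← key.1]
  have ha0 := h.a0
  refine Dia.Z_cr_free2 (insS σ i0) N ⟨C, (dia (insS σ i0) (insV v B)).pos, t0,
    (dia (insS σ i0) (insV v B)).ep, (dia (insS σ i0) (insV v B)).b⟩ _ (ok'.cr_sub hsub t0)
    (i := some (σ.symm i0)) (j := some i0) (k := none) ?_ (cr_self i0) ?_ (by simp) (by simp)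
    ?_ ?_ rfl rfl rfl rfl ?_ ?_
  · rw [cr_some i0 ha0, Equiv.apply_symm_apply]
  · intro e
    exact ha0 (Option.some.inj e)
  · rintro l (hl | hl)
    · obtain ⟨i, j, e1, -, hi, -⟩ := hni hl
      exact hi (Option.some.inj e1).symm
    · obtain ⟨i, j, -, e1, -, hi, -⟩ := hni hl
      exact hi (Option.some.inj e1).symm
  · rintro l (hl | hl)
    · obtain ⟨i, j, e1, -⟩ := hni hl
      exact absurd e1 (by simp)
    · obtain ⟨i, j, -, e1, -⟩ := hni hl
      exact absurd e1 (by simp)
  · rintro (_ | a) h1 h2 h3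
    · exact absurd rfl h3
    · have e1 : a ≠ i0 := fun e => h2 (by rw [e])
      have e2 : σ a ≠ i0 := by
        intro e
        apply h1
        rw [← e, Equiv.symm_apply_apply]
      show t (some a) = if a = i0 then 0 else (dia σ v).th a
      rw [if_neg e1]
      exact ht1 a e1 e2
  · show t (some (σ.symm i0)) + t (some i0) + t none =
      (if σ.symm i0 = i0 then 0 else (dia σ v).th (σ.symm i0)) +
        (if i0 = i0 then 0 else (dia σ v).th i0) + (dia σ v).th i0
    rw [if_neg ha0, if_pos rfl, ht2]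
    ring

end

end Pool.Agent.Lib.MP_ca0971_gt.OT
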