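import Pool.Agent.Lib.MP_ca0971_gt.OT.Cor.Ins
import Pool.Agent.Lib.MP_ca0971_gt.OT.Cor.CrBase
import Pool.Agent.Lib.MP_ca0971_gt.OT.Ang

/-!
# Project OT, Cor: corner at the start of the edge i0

The vertex B is inserted on the edge i0 from A = v i0 to C' = v (σ i0), not straight; the projected
triangle A B C' meets no other edge than the edge a = σ⁻¹ i0 which ends in A (and i0, σ i0). The edge
σ i0 goes on in the direction of i0.

Let x = dd a, y = B - A, z = C' - B (projections), y + z = dd i0. Z = v a = A - x. If -x is in the open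
cone of y and y + z, then (back) the edge a crosses B C' in one point (and nothing else happens), otherwise
not even that (-x is not on the boundary rays by slit and Gen.slit). So the crossings of the new polygon
are those of the old one (the edges i0, some i0, none have no other crossings) and possibly
(some a, none) (either order of heights, hgt).

* no crossing: Dia.Z_ins for the diagram of v (edge i0 without crossings, any τ), then Dia.Z_free twice
  (edges some i0 and none without crossings): only the total turning at the ends of some a, some i0, none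
  counts; turn_cornA0 (dd σ i0 is a positive multiple of y + z).
* crossing: first Dia.Z_R1_over / Z_R1_under for i = some a (hb, hsum from turn_cornA; for the under
  version turn_neg), then as before.
-/

set_option autoImplicit false

namespace Pool.Agent.Lib.MP_ca0971_gt.OT

open Finset Filter Topology

variable {I : Type} [Fintype I] [DecidableEq I] {σ : Equiv.Perm I}

structure CornA (σ : Equiv.Perm I) (v : I → E) (i0 : I) (B : E) : Prop where
  gen : Gen σ v
  nd : dt (B.1 - (v i0).1) ((v (σ i0)).1 - (v i0).1) ≠ 0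
  free : ∀ j, j ≠ i0 → σ j ≠ i0 → j ≠ σ i0 →
    Disjoint (sg σ v j) (convexHull ℝ {(v i0).1, B.1, (v (σ i0)).1})
  dir : ∃ r : ℝ, 0 < r ∧ dd σ v (σ i0) = (r : ℂ) * dd σ v i0
  back : (v (σ.symm i0)).1 ∉ convexHull ℝ {(v i0).1, B.1, (v (σ i0)).1}
  slit : (B.1 - (v i0).1) / dd σ v (σ.symm i0) ∈ Complex.slitPlane
  hgt : Disjoint (segment ℝ (v (σ.symm i0)) (v i0)) (segment ℝ B (v (σ i0)))

section

variable {v : I → E} {i0 : I} {B : E}

omit [Fintype I] [DecidableEq I] in
theorem CornA.nd' (h : CornA σ v i0 B) : dt (B.1 - (v i0).1) (dd σ v i0) ≠ 0 := h.nd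

omit [Fintype I] [DecidableEq I] in
theorem CornA.hi (h : CornA σ v i0 B) : σ i0 ≠ i0 := by
  intro e
  have := h.nd
  rw [e, sub_self] at this
  unfold dt at this
  simp at this

omit [Fintype I] [DecidableEq I] in
theorem CornA.a0 (h : CornA σ v i0 B) : σ.symm i0 ≠ i0 := by
  intro e
  apply h.hi
  conv_lhs => rw [← e]
  exact σ.apply_symm_apply i0

omit [Fintype I] [DecidableEq I] in
theorem CornA.u0 (h : CornA σ v i0 B) : dd σ v i0 ≠ 0 := by
  intro e
  have := h.nd'
  rw [e] at this
  unfold dt at this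
  simp at this

omit [Fintype I] [DecidableEq I] in
theorem CornA.ca (h : CornA σ v i0 B) : σ i0 ≠ σ.symm i0 := by
  intro e
  obtain ⟨r, hr, hd⟩ := h.dir
  have h1 : dd σ v (σ i0) = -dd σ v i0 := by
    unfold dd
    conv_lhs => rw [e, Equiv.apply_symm_apply, ← e]
    ring
  rw [h1] at hd
  have h2 : ((r : ℂ) + 1) * dd σ v i0 = 0 := by linear_combination -hd
  rcases mul_eq_zero.1 h2 with h3 | h3
  · have h4 : (((r + 1 : ℝ)) : ℂ) = 0 := by
      push_cast
      exact h3
    have := Complex.ofReal_eq_zero.1 h4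
    linarith
  · exact h.u0 h3

omit [Fintype I] [DecidableEq I] in
/-- Points of the next edge. -/
theorem CornA.mem_c (h : CornA σ v i0 B) {p : ℂ} (hp : p ∈ sg σ v (σ i0)) :
    ∃ s : ℝ, 0 ≤ s ∧ p = (v i0).1 + (((0 : ℝ) : ℂ) * (B.1 - (v i0).1) +
      ((1 + s : ℝ) : ℂ) * dd σ v i0) := by
  obtain ⟨r, hr, hd⟩ := h.dir
  unfold sg at hp
  rw [segment_eq_image'] at hp
  obtain ⟨t, ⟨t0, t1⟩, rfl⟩ := hp
  refine ⟨t * r, mul_nonneg t0 hr.le, ?_⟩
  have e : (v (σ (σ i0))).1 - (v (σ i0)).1 = (r : ℂ) * dd σ v i0 := hd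
  rw [e]
  unfold dd
  simp only [Complex.real_smul]
  push_cast
  ring

omit [Fintype I] [DecidableEq I] in
theorem CornA.mem_AB (_h : CornA σ v i0 B) {p : ℂ} (hp : p ∈ segment ℝ (v i0).1 B.1) :
    ∃ s : ℝ, 0 ≤ s ∧ s ≤ 1 ∧ p = (v i0).1 + ((s : ℂ) * (B.1 - (v i0).1) +
      ((0 : ℝ) : ℂ) * dd σ v i0) := by
  rw [segment_eq_image'] at hp
  obtain ⟨t, ⟨t0, t1⟩, rfl⟩ := hp
  refine ⟨t, t0, t1, ?_⟩
  simp only [Complex.real_smul]
  push_cast
  ring

omit [Fintype I] [DecidableEq I] in
theorem CornA.mem_BC (_h : CornA σ v i0 B) {p : ℂ} (hp : p ∈ segment ℝ B.1 (v (σ i0)).1) :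
    ∃ s : ℝ, 0 ≤ s ∧ s ≤ 1 ∧ p = (v i0).1 + (((1 - s : ℝ) : ℂ) * (B.1 - (v i0).1) +
      (s : ℂ) * dd σ v i0) := by
  rw [segment_eq_image'] at hp
  obtain ⟨t, ⟨t0, t1⟩, rfl⟩ := hp
  refine ⟨t, t0, t1, ?_⟩
  unfold dd
  simp only [Complex.real_smul]
  push_cast
  ring

omit [Fintype I] [DecidableEq I] in
theorem CornA.AB_sub (_h : CornA σ v i0 B) {p : ℂ} (hp : p ∈ segment ℝ (v i0).1 B.1) :
    p ∈ convexHull ℝ ({(v i0).1, B.1, (v (σ i0)).1} : Set ℂ) :=
  segment_subset_convexHull (by simp) (by simp) hp

omit [Fintype I] [DecidableEq I] in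
theorem CornA.BC_sub (_h : CornA σ v i0 B) {p : ℂ} (hp : p ∈ segment ℝ B.1 (v (σ i0)).1) :
    p ∈ convexHull ℝ ({(v i0).1, B.1, (v (σ i0)).1} : Set ℂ) :=
  segment_subset_convexHull (by simp) (by simp) hp

omit [Fintype I] [DecidableEq I] in
theorem CornA.AC_sub (_h : CornA σ v i0 B) {p : ℂ} (hp : p ∈ sg σ v i0) :
    p ∈ convexHull ℝ ({(v i0).1, B.1, (v (σ i0)).1} : Set ℂ) :=
  segment_subset_convexHull (by simp) (by simp) hp

omit [Fintype I] [DecidableEq I] in
/-- A free edge does not contain points of the triangle. -/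
theorem CornA.off (h : CornA σ v i0 B) {j : I} {p : ℂ} (h1 : j ≠ i0) (h2 : σ j ≠ i0)
    (h3 : j ≠ σ i0) (hj : p ∈ sg σ v j)
    (hp : p ∈ convexHull ℝ ({(v i0).1, B.1, (v (σ i0)).1} : Set ℂ)) : False :=
  Set.disjoint_left.1 (h.free j h1 h2 h3) hj hp

omit [Fintype I] [DecidableEq I] in
/-- Where the incoming edge meets the triangle. -/
theorem CornA.crs (h : CornA σ v i0 B) :
    (∃ α β : ℝ, 0 < α ∧ 0 < β ∧ 1 < α + β ∧ - dd σ v (σ.symm i0) =
      (α : ℂ) * (B.1 - (v i0).1) + (β : ℂ) * ((v (σ i0)).1 - (v i0).1)) ∨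
    (∀ α β : ℝ, 0 ≤ α → 0 ≤ β → - dd σ v (σ.symm i0) ≠
      (α : ℂ) * (B.1 - (v i0).1) + (β : ℂ) * ((v (σ i0)).1 - (v i0).1)) := by
  by_cases hex : ∃ α β : ℝ, 0 ≤ α ∧ 0 ≤ β ∧ - dd σ v (σ.symm i0) =
      (α : ℂ) * (B.1 - (v i0).1) + (β : ℂ) * ((v (σ i0)).1 - (v i0).1)
  · left
    obtain ⟨α, β, ha, hb, e⟩ := hex
    have s1 := h.slit
    have s2 := h.gen.slit (σ.symm i0)
    rw [Equiv.apply_symm_apply] at s2
    have ha' : 0 < α := by
      rcases eq_or_lt_of_le ha with h0 | h0
      · exfalso
        rw [← h0] at e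
        rcases eq_or_lt_of_le hb with h1 | h1
        · rw [← h1] at e
          have := (cr_slit_ne_zero s2).1
          apply this
          have h5 : dd σ v (σ.symm i0) = -(- dd σ v (σ.symm i0)) := by ring
          rw [h5, e]
          simp
        · have e2 : dd σ v i0 = ((-(1 / β) : ℝ) : ℂ) * dd σ v (σ.symm i0) := by
            have hne : (β : ℂ) ≠ 0 := Complex.ofReal_ne_zero.2 h1.ne'
            have e3 : dd σ v (σ.symm i0) = -((β : ℂ) * dd σ v i0) := by
              have h5 : dd σ v (σ.symm i0) = -(- dd σ v (σ.symm i0)) := by ring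
              rw [h5, e]
              unfold dd
              simp
            rw [e3]
            push_cast
            field_simp
          exact cr_slit_ne_neg s2 (by
            have : 0 < 1 / β := by positivity
            linarith) e2
      · exact h0
    have hb' : 0 < β := by
      rcases eq_or_lt_of_le hb with h0 | h0
      · exfalso
        rw [← h0] at e
        have e2 : B.1 - (v i0).1 = ((-(1 / α) : ℝ) : ℂ) * dd σ v (σ.symm i0) := by
          have hne : (α : ℂ) ≠ 0 := Complex.ofReal_ne_zero.2 ha'.ne'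
          have e3 : dd σ v (σ.symm i0) = -((α : ℂ) * (B.1 - (v i0).1)) := by
            have h5 : dd σ v (σ.symm i0) = -(- dd σ v (σ.symm i0)) := by ring
            rw [h5, e]
            simp
          rw [e3]
          push_cast
          field_simp
        exact cr_slit_ne_neg s1 (by
          have : 0 < 1 / α := by positivity
          linarith) e2
      · exact h0
    refine ⟨α, β, ha', hb', ?_, e⟩
    by_contra hle
    push Not at hle
    apply h.back
    have hm := cr_hull_mem (A := (v i0).1) (B := B.1) (C := (v (σ i0)).1) ha hb hle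
    rw [← e] at hm
    convert hm using 1
    unfold dd
    rw [Equiv.apply_symm_apply]
    ring
  · right
    intro α β ha hb e
    exact hex ⟨α, β, ha, hb, e⟩

omit [Fintype I] [DecidableEq I] in
theorem CornA.n0 (h : CornA σ v i0 B) (j : I) : ¬ Crs σ v i0 j := by
  intro hc
  have hm := hc.cr_mem
  refine h.off ?_ ?_ ?_ hm.2 (h.AC_sub hm.1)
  · intro e
    exact hc.1 (Or.inl e.symm)
  · intro e
    exact hc.1 (Or.inr (Or.inr e.symm))
  · intro e
    exact hc.1 (Or.inr (Or.inl e))

omit [Fintype I] in
theorem CornA.n1 (h : CornA σ v i0 B) (j : Option I) :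
    ¬ Crs (insS σ i0) (insV v B) (some i0) j := by
  intro hc
  have hm := hc.cr_mem
  rw [cr_sg0] at hm
  rcases j with _ | j
  · exact hc.1 (cr_adj0n i0)
  · by_cases h1 : j = i0
    · exact hc.1 (Or.inl (by rw [h1]))
    · rw [cr_sg v B i0 h1] at hm
      by_cases h2 : σ j = i0
      · exact hc.1 (cr_adj0 i0 h1 h2).symm'
      · by_cases h3 : j = σ i0
        · subst h3
          obtain ⟨s, s0, e1⟩ := h.mem_c hm.2
          obtain ⟨t, -, -, e2⟩ := h.mem_AB hm.1
          rw [e2] at e1
          have := (cr_lin_unique h.nd' (add_left_cancel e1)).2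
          linarith
        · exact h.off h1 h2 h3 hm.2 (h.AB_sub hm.1)

omit [Fintype I] in
theorem CornA.n2 (h : CornA σ v i0 B) (j : Option I)
    (hc : Crs (insS σ i0) (insV v B) none j) : j = some (σ.symm i0) := by
  have hm := hc.cr_mem
  rw [cr_sgn] at hm
  rcases j with _ | j
  · exact absurd (Or.inl rfl) hc.1
  · by_cases h1 : j = i0
    · subst h1
      exact absurd (cr_adj0n j).symm' hc.1
    · rw [cr_sg v B i0 h1] at hm
      by_cases h2 : σ j = i0
      · rw [← h2, Equiv.symm_apply_apply]
      · by_cases h3 : j = σ i0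
        · subst h3
          exact absurd (cr_adjn i0) hc.1
        · exact absurd (h.BC_sub hm.1) fun hh => h.off h1 h2 h3 hm.2 hh

omit [Fintype I] [DecidableEq I] in
/-- The start of the incoming edge. -/
theorem CornA.va (_h : CornA σ v i0 B) :
    (v i0).1 = (v (σ.symm i0)).1 + dd σ v (σ.symm i0) := by
  unfold dd
  rw [Equiv.apply_symm_apply]
  ring

omit [Fintype I] in
/-- In the first case: the positions of the crossing. -/
theorem CornA.cr1 (h : CornA σ v i0 B) {α β : ℝ} (ha : 0 < α) (hb : 0 < β) (hab : 1 < α + β)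
    (e : - dd σ v (σ.symm i0) =
      (α : ℂ) * (B.1 - (v i0).1) + (β : ℂ) * ((v (σ i0)).1 - (v i0).1)) :
    Crs (insS σ i0) (insV v B) (some (σ.symm i0)) none ∧
      par (insS σ i0) (insV v B) (some (σ.symm i0)) none = 1 - 1 / (α + β) := by
  have hs : 0 < α + β := by linarith
  have hs' : ((α : ℂ) + (β : ℂ)) ≠ 0 := by
    rw [← Complex.ofReal_add]
    exact Complex.ofReal_ne_zero.2 hs.ne'
  have hd1 := cr_dd (σ := σ) v B i0 h.a0
  have hd2 := cr_ddn (σ := σ) v B i0
  have hdt : dt (dd (insS σ i0) (insV v B) (some (σ.symm i0))) (dd (insS σ i0) (insV v B) none) =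
      -((α + β) * dt (B.1 - (v i0).1) ((v (σ i0)).1 - (v i0).1)) := by
    rw [hd1, hd2]
    have h5 : dd σ v (σ.symm i0) =
        -((α : ℂ) * (B.1 - (v i0).1) + (β : ℂ) * ((v (σ i0)).1 - (v i0).1)) := by
      rw [← e]
      ring
    rw [h5]
    unfold dt
    simp
    ring
  have hne : dt (dd (insS σ i0) (insV v B) (some (σ.symm i0)))
      (dd (insS σ i0) (insV v B) none) ≠ 0 := by
    rw [hdt]
    exact neg_ne_zero.2 (mul_ne_zero hs.ne' h.nd)
  have hpt := par_unique (σ := insS σ i0) (insV v B) hne (s := 1 - 1 / (α + β))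
    (t := β / (α + β)) (by
      rw [hd1, hd2]
      show (v (σ.symm i0)).1 + _ = B.1 + _
      have h6 : (v (σ.symm i0)).1 = (v i0).1 - dd σ v (σ.symm i0) := by
        rw [h.va]
        ring
      rw [h6]
      have h5 : dd σ v (σ.symm i0) =
          -((α : ℂ) * (B.1 - (v i0).1) + (β : ℂ) * ((v (σ i0)).1 - (v i0).1)) := by
        rw [← e]
        ring
      rw [h5]
      push_cast
      field_simp
      ring)
  have q1 : 1 / (α + β) < 1 := by
    rw [div_lt_one hs]
    exact hab
  have q2 : 0 < 1 / (α + β) := by positivity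
  refine ⟨⟨?_, hne, ?_, ?_, ?_, ?_⟩, hpt.1.symm⟩
  · rintro (h1 | h1 | h1)
    · exact absurd h1 (by simp)
    · rw [cr_some i0 h.a0] at h1
      exact absurd h1 (by simp)
    · rw [cr_none] at h1
      exact h.ca (Option.some.inj h1).symm
  · rw [← hpt.1]
    linarith
  · rw [← hpt.1]
    linarith
  · rw [← hpt.2]
    positivity
  · rw [← hpt.2, div_lt_one hs]
    linarith

omit [Fintype I] in
/-- In the first case: the other crossings of the incoming edge come before. -/
theorem CornA.last (h : CornA σ v i0 B) {α β : ℝ} (ha : 0 < α) (hb : 0 < β) (hab : 1 < α + β)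
    (e : - dd σ v (σ.symm i0) =
      (α : ℂ) * (B.1 - (v i0).1) + (β : ℂ) * ((v (σ i0)).1 - (v i0).1))
    {l : Option I} (hc : Crs (insS σ i0) (insV v B) (some (σ.symm i0)) l) (hl : l ≠ none) :
    par (insS σ i0) (insV v B) (some (σ.symm i0)) l <
      par (insS σ i0) (insV v B) (some (σ.symm i0)) none := by
  rw [(h.cr1 ha hb hab e).2]
  by_contra hle
  push Not at hle
  rcases l with _ | l
  · exact hl rfl
  · have h1 : l ≠ i0 := by
      intro e
      subst e
      exact h.n1 _ hc.symm'
    have hm := hc.cr_mem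
    rw [cr_sg v B i0 h1] at hm
    set s := par (insS σ i0) (insV v B) (some (σ.symm i0)) (some l) with hs
    have hs1 : s < 1 := hc.2.2.2.1
    have hpos : 0 < α + β := by linarith
    have hmp : mp (insS σ i0) (insV v B) (some (σ.symm i0)) (some l) =
        (v i0).1 + ((((1 - s) * α : ℝ) : ℂ) * (B.1 - (v i0).1) +
          (((1 - s) * β : ℝ) : ℂ) * ((v (σ i0)).1 - (v i0).1)) := by
      unfold mp
      rw [← hs, cr_dd v B i0 h.a0]
      show (v (σ.symm i0)).1 + (s : ℂ) * dd σ v (σ.symm i0) = _
      have h6 : (v (σ.symm i0)).1 = (v i0).1 - dd σ v (σ.symm i0) := by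
        rw [h.va]
        ring
      rw [h6]
      push_cast
      linear_combination (1 - (s : ℂ)) * e
    have hmem : mp (insS σ i0) (insV v B) (some (σ.symm i0)) (some l) ∈
        convexHull ℝ ({(v i0).1, B.1, (v (σ i0)).1} : Set ℂ) := by
      rw [hmp]
      refine cr_hull_mem (mul_nonneg (by linarith) ha.le) (mul_nonneg (by linarith) hb.le) ?_
      have h7 : (1 - s) * (α + β) ≤ 1 / (α + β) * (α + β) :=
        mul_le_mul_of_nonneg_right (by linarith) hpos.le
      rw [div_mul_cancel₀ _ hpos.ne'] at h7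
      linarith
    by_cases h2 : σ l = i0
    · apply hc.1
      left
      rw [← h2, Equiv.symm_apply_apply]
    · by_cases h3 : l = σ i0
      · rw [h3] at hm
        obtain ⟨t, -, e1⟩ := h.mem_c hm.2
        rw [← h3, hmp] at e1
        have := (cr_lin_unique h.nd' (add_left_cancel e1)).1
        have : 0 < (1 - s) * α := mul_pos (by linarith) ha
        linarith
      · exact h.off h1 h2 h3 hm.2 hmem

omit [Fintype I] in
/-- In the second case there is no crossing. -/
theorem CornA.cr2 (h : CornA σ v i0 B) (e : ∀ α β : ℝ, 0 ≤ α → 0 ≤ β → - dd σ v (σ.symm i0) ≠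
      (α : ℂ) * (B.1 - (v i0).1) + (β : ℂ) * ((v (σ i0)).1 - (v i0).1)) :
    ¬ Crs (insS σ i0) (insV v B) (some (σ.symm i0)) none := by
  intro hc
  have hm := hc.cr_mem
  rw [cr_sgn] at hm
  obtain ⟨t, t0, t1, e2⟩ := h.mem_BC hm.2
  set s := par (insS σ i0) (insV v B) (some (σ.symm i0)) none with hs
  have hs1 : s < 1 := hc.2.2.2.1
  have hq : 0 < 1 - s := by linarith
  refine e ((1 - t) / (1 - s)) (t / (1 - s)) (div_nonneg (by linarith) hq.le)
    (div_nonneg t0 hq.le) ?_
  unfold mp at e2
  rw [← hs, cr_dd v B i0 h.a0] at e2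
  have h6 : ((insV v B) (some (σ.symm i0))).1 = (v i0).1 - dd σ v (σ.symm i0) := by
    show (v (σ.symm i0)).1 = _
    rw [h.va]
    ring
  rw [h6] at e2
  have h7 : (1 - (s : ℂ)) ≠ 0 := by
    have : (((1 - s : ℝ)) : ℂ) ≠ 0 := Complex.ofReal_ne_zero.2 hq.ne'
    push_cast at this
    exact this
  have e3 : (1 - (s : ℂ)) * (- dd σ v (σ.symm i0)) = ((1 - t : ℝ) : ℂ) * (B.1 - (v i0).1) +
      (t : ℂ) * dd σ v i0 := by
    linear_combination e2
  push_cast
  rw [div_mul_eq_mul_div, div_mul_eq_mul_div, ← add_div, eq_div_iff h7]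
  push_cast at e3
  unfold dd at e3 ⊢
  linear_combination e3

omit [Fintype I] in
theorem CornA.newV (h : CornA σ v i0 B) : NewV σ v i0 B none (σ.symm i0) where
  gen := h.gen
  hi := h.hi
  s1 := h.slit
  s2 := by
    refine cr_slit_of_dt ?_
    have := h.nd
    intro e
    apply this
    rw [← e]
    unfold dt
    simp
    ring
  s3 := by
    obtain ⟨r, hr, hd⟩ := h.dir
    refine cr_slit_of_dt ?_
    rw [hd]
    intro e
    have h1 : dt ((v (σ i0)).1 - B.1) ((r : ℂ) * dd σ v i0) =
        -r * dt (B.1 - (v i0).1) ((v (σ i0)).1 - (v i0).1) := by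
      unfold dt dd
      simp
      ring
    rw [h1] at e
    rcases mul_eq_zero.1 e with h2 | h2
    · linarith
    · exact h.nd h2
  q0 := h.a0
  n0 := h.n0
  n1 := fun j hj => absurd hj (h.n1 j)
  n2 := fun j hj => ⟨rfl, h.n2 j hj⟩
  tr := by
    intro j hj hc hne
    rcases h.crs with ⟨α, β, ha, hb, hab, e⟩ | e
    · exact (h.last ha hb hab e hj hne).ne
    · exact absurd hc (h.cr2 e)
  hh := by
    intro hc e
    have m1 : v (σ.symm i0) + par (insS σ i0) (insV v B) (some (σ.symm i0)) none •
        (v i0 - v (σ.symm i0)) ∈ segment ℝ (v (σ.symm i0)) (v i0) := by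
      rw [segment_eq_image']
      exact ⟨_, ⟨hc.2.2.2.2.1.le, hc.2.2.2.2.2.le⟩, rfl⟩
    have m2 : v (σ.symm i0) + par (insS σ i0) (insV v B) (some (σ.symm i0)) none •
        (v i0 - v (σ.symm i0)) ∈ segment ℝ B (v (σ i0)) := by
      rw [segment_eq_image']
      refine ⟨par (insS σ i0) (insV v B) none (some (σ.symm i0)),
        ⟨hc.2.2.1.le, hc.2.2.2.1.le⟩, ?_⟩
      have hmp := mp_symm (σ := insS σ i0) (insV v B) hc.2.1
      unfold mp at hmp
      rw [cr_dd v B i0 h.a0, cr_ddn] at hmp
      unfold ht at e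
      rw [cr_dh v B i0 h.a0] at e
      unfold dh at e
      rw [cr_none, Equiv.apply_symm_apply] at e
      unfold dd at hmp
      rw [Equiv.apply_symm_apply] at hmp
      refine Prod.ext ?_ ?_
      · simp only [Prod.fst_add, Prod.smul_fst, Prod.fst_sub, Complex.real_smul]
        exact hmp
      · simp only [Prod.snd_add, Prod.smul_snd, Prod.snd_sub, smul_eq_mul]
        exact e
    exact Set.disjoint_left.1 h.hgt m1 m2
  v1 := by
    intro i hi hm
    by_cases h3 : i = σ i0
    · subst h3
      obtain ⟨s, -, -, e⟩ := h.mem_AB hm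
      have e1 : (v (σ i0)).1 = (v i0).1 + (((0 : ℝ) : ℂ) * (B.1 - (v i0).1) +
          ((1 : ℝ) : ℂ) * dd σ v i0) := by
        unfold dd
        push_cast
        ring
      rw [e1] at e
      have := (cr_lin_unique h.nd' (add_left_cancel e)).2
      linarith
    · by_cases h2 : σ i = i0
      · apply h.back
        rw [← h2, Equiv.symm_apply_apply, h2]
        exact h.AB_sub hm
      · exact h.off hi h2 h3 (left_mem_segment ℝ _ _) (h.AB_sub hm)
  v2 := by
    intro i hi hm
    by_cases h3 : i = i0
    · subst h3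
      obtain ⟨s, -, -, e⟩ := h.mem_BC hm
      have e1 : (v i).1 = (v i).1 + (((0 : ℝ) : ℂ) * (B.1 - (v i).1) +
          ((0 : ℝ) : ℂ) * dd σ v i) := by
        push_cast
        ring
      conv_lhs at e => rw [e1]
      have h1 := (cr_lin_unique h.nd' (add_left_cancel e)).1
      have h2 := (cr_lin_unique h.nd' (add_left_cancel e)).2
      linarith
    · by_cases h2 : σ i = i0
      · apply h.back
        rw [← h2, Equiv.symm_apply_apply, h2]
        exact h.BC_sub hm
      · exact h.off h3 h2 hi (left_mem_segment ℝ _ _) (h.BC_sub hm)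
  v3 := by
    intro j hj hm
    have hB : B.1 ∈ convexHull ℝ ({(v i0).1, B.1, (v (σ i0)).1} : Set ℂ) :=
      subset_convexHull ℝ _ (by simp)
    by_cases h2 : σ j = i0
    · have hja : j = σ.symm i0 := by rw [← h2, Equiv.symm_apply_apply]
      subst hja
      unfold sg at hm
      rw [Equiv.apply_symm_apply, segment_eq_image'] at hm
      obtain ⟨t, ⟨t0, t1⟩, e⟩ := hm
      have e2 : B.1 - (v i0).1 = ((-(1 - t) : ℝ) : ℂ) * dd σ v (σ.symm i0) := by
        rw [← e]
        unfold dd
        rw [Equiv.apply_symm_apply]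
        simp only [Complex.real_smul]
        push_cast
        ring
      exact cr_slit_ne_neg h.slit (by linarith) e2
    · by_cases h3 : j = σ i0
      · subst h3
        obtain ⟨s, s0, e⟩ := h.mem_c hm
        have e1 : B.1 = (v i0).1 + (((1 : ℝ) : ℂ) * (B.1 - (v i0).1) +
            ((0 : ℝ) : ℂ) * dd σ v i0) := by
          push_cast
          ring
        conv_lhs at e => rw [e1]
        have := (cr_lin_unique h.nd' (add_left_cancel e)).2
        linarith
      · exact h.off hj h2 h3 hm hB

omit [Fintype I] in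
theorem CornA.gen' (h : CornA σ v i0 B) : Gen (insS σ i0) (insV v B) :=
  h.newV.gen' (Or.inr rfl)

theorem CornA.Zh_eq (h : CornA σ v i0 B) (N : ℕ) :
    Zh (insS σ i0) (insV v B) N = Zh σ v N := by
  classical
  have hN := h.newV
  have hG' := h.gen'
  have ok' := dia_ok hG'
  obtain ⟨r, hr, hd⟩ := h.dir
  set a := σ.symm i0 with hadef
  have haS : σ a = i0 := σ.apply_symm_apply i0
  have ha0 : a ≠ i0 := h.a0
  -- directions
  set x := dd σ v a with hx
  set y := B.1 - (v i0).1 with hy
  set z := (v (σ i0)).1 - B.1 with hz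
  have hyz : dd σ v i0 = y + z := by
    rw [hy, hz]
    unfold dd
    ring
  have hyz' : (v (σ i0)).1 - (v i0).1 = y + z := hyz
  have hnd : dt y z ≠ 0 := by
    have h1 := h.nd'
    rw [← hy, hyz] at h1
    intro e
    apply h1
    rw [← e]
    unfold dt
    simp
    ring
  have hyz0 : y + z ≠ 0 := by
    rw [← hyz]
    exact h.u0
  -- turnings of the new polygon
  have t1 : (dia (insS σ i0) (insV v B)).th (some a) = turn (y / x) := by
    show turn (dd (insS σ i0) (insV v B) (insS σ i0 (some a)) /
      dd (insS σ i0) (insV v B) (some a)) = _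
    rw [cr_some i0 ha0, haS, cr_dd0, cr_dd v B i0 ha0]
  have t2 : (dia (insS σ i0) (insV v B)).th (some i0) = turn (z / y) := by
    show turn (dd (insS σ i0) (insV v B) (insS σ i0 (some i0)) /
      dd (insS σ i0) (insV v B) (some i0)) = _
    rw [cr_self, cr_dd0, cr_ddn]
  have t3 : (dia (insS σ i0) (insV v B)).th none = turn ((y + z) / z) := by
    show turn (dd (insS σ i0) (insV v B) (insS σ i0 none) /
      dd (insS σ i0) (insV v B) none) = _
    rw [cr_none, cr_ddn, cr_dd v B i0 h.hi, hd, hyz, mul_div_assoc, cr_turn_smul hr]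
  have t4 : ∀ i, i ≠ i0 → σ i ≠ i0 →
      (dia (insS σ i0) (insV v B)).th (some i) = (dia σ v).th i := by
    intro i h1 h2
    show turn (dd (insS σ i0) (insV v B) (insS σ i0 (some i)) /
      dd (insS σ i0) (insV v B) (some i)) = turn (dd σ v (σ i) / dd σ v i)
    rw [cr_some i0 h1, cr_dd v B i0 h2, cr_dd v B i0 h1]
  have t5 : (dia σ v).th a = turn ((y + z) / x) := by
    show turn (dd σ v (σ a) / dd σ v a) = _
    rw [haS, hyz]
  have t6 : (dia σ v).th i0 = 0 := by
    show turn (dd σ v (σ i0) / dd σ v i0) = 0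
    rw [hd, mul_div_assoc, cr_turn_smul hr, div_self h.u0, cr_turn_one]
  have hP := (Or.inr rfl : (none : Option I) = some i0 ∨ (none : Option I) = none)
  -- the old crossings
  have hold : ∀ i j, (i, j) ∈ (dia σ v).C →
      (some i, some j) ∈ (dia (insS σ i0) (insV v B)).C := by
    intro i j hm
    have hc := cr_mem_dia.1 hm
    have hi : i ≠ i0 := by
      intro e
      subst e
      exact h.n0 j hc.1
    have hj : j ≠ i0 := by
      intro e
      subst e
      exact h.n0 i hc.1.symm'
    refine cr_mem_dia.2 ⟨(cr_crs v B i0 hi hj).2 hc.1, ?_⟩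
    rw [cr_ht v B i0 hi hj, cr_ht v B i0 hj hi]
    exact hc.2
  have hold' : ∀ i j, i ≠ i0 → j ≠ i0 → (some i, some j) ∈ (dia (insS σ i0) (insV v B)).C →
      (i, j) ∈ (dia σ v).C := by
    intro i j hi hj hm
    have hc := cr_mem_dia.1 hm
    rw [cr_ht v B i0 hi hj, cr_ht v B i0 hj hi] at hc
    exact cr_mem_dia.2 ⟨(cr_crs v B i0 hi hj).1 hc.1, hc.2⟩
  have hnew : ∀ p q : Option I, (p, q) ∈ (dia (insS σ i0) (insV v B)).C →
      (p = none ∧ q = some a) ∨ (p = some a ∧ q = none) ∨
        ∃ i j, p = some i ∧ q = some j ∧ (i, j) ∈ (dia σ v).C := by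
    intro p q hm
    rcases hN.old (cr_mem_dia.1 hm).1 with h1 | h1 | ⟨i, j, e1, e2, hi, hj, -⟩
    · exact Or.inl h1
    · exact Or.inr (Or.inl h1)
    · subst e1
      subst e2
      exact Or.inr (Or.inr ⟨i, j, rfl, rfl, hold' i j hi hj hm⟩)
  unfold Zh Dia.Zh
  rcases h.crs with ⟨α, β, hα, hβ, hab, e⟩ | e
  · -- crossing
    have hcr := (h.cr1 hα hβ hab e).1
    rw [← hadef] at hcr
    have e' : -x = (α : ℂ) * y + (β : ℂ) * (y + z) := by
      rw [← hyz']
      exact e
    obtain ⟨c1, c2⟩ := turn_cornA hα hβ hnd e'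
    have hxz : dt x z ≠ 0 := by
      have := hcr.2.1
      rw [cr_dd v B i0 ha0, cr_ddn] at this
      exact this
    have hb1 : (dia (insS σ i0) (insV v B)).b (some a) none = turn (z / x) := by
      show turn (dd (insS σ i0) (insV v B) none / dd (insS σ i0) (insV v B) (some a)) = _
      rw [cr_ddn, cr_dd v B i0 ha0]
    have hb2 : (dia (insS σ i0) (insV v B)).b none (some a) = -turn (z / x) := by
      show turn (dd (insS σ i0) (insV v B) (some a) / dd (insS σ i0) (insV v B) none) = _
      rw [cr_ddn, cr_dd v B i0 ha0]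
      exact turn_neg hxz
    have he1 : (dia (insS σ i0) (insV v B)).ep (some a) none = sg1 (dt x z) := by
      show (if 0 < dt (dd (insS σ i0) (insV v B) (some a)) (dd (insS σ i0) (insV v B) none)
        then (1 : ℝ) else -1) = _
      rw [cr_ddn, cr_dd v B i0 ha0]
      rfl
    have he2 : (dia (insS σ i0) (insV v B)).ep none (some a) = -sg1 (dt x z) := by
      show (if 0 < dt (dd (insS σ i0) (insV v B) none) (dd (insS σ i0) (insV v B) (some a))
        then (1 : ℝ) else -1) = _
      rw [cr_ddn, cr_dd v B i0 ha0, dt_swap]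
      unfold sg1
      rcases lt_or_gt_of_ne hxz with h1 | h1
      · rw [if_pos (by linarith), if_neg (by linarith)]
        norm_num
      · rw [if_neg (by linarith), if_pos h1]
    have hne0 : (insS σ i0) (some a) = some i0 := by rw [cr_some i0 ha0, haS]
    have hne1 : (insS σ i0) (some i0) = none := cr_self i0
    set t : Option I → ℝ := fun p => if p = some a then turn (y / x) + turn (z / y) + sg1 (dt x z)
      else if p = some i0 then 0 else (dia (insS σ i0) (insV v B)).th p with ht
    have hta : t (some a) = turn (y / x) + turn (z / y) + sg1 (dt x z) := if_pos rfl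
    have hti : t (some i0) = 0 := by
      show (if some i0 = some a then _ else if some i0 = some i0 then (0 : ℝ) else _) = 0
      rw [if_neg (fun e => ha0 (Option.some.inj e).symm), if_pos rfl]
    have htn : t none = turn ((y + z) / z) := by
      show (if none = some a then _ else if none = some i0 then (0 : ℝ) else
        (dia (insS σ i0) (insV v B)).th none) = _
      rw [if_neg (by simp), if_neg (by simp), t3]
    have hto : ∀ p, p ≠ some a → p ≠ some i0 → t p = (dia (insS σ i0) (insV v B)).th p := by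
      intro p h1 h2
      show (if p = some a then _ else if p = some i0 then (0 : ℝ) else
        (dia (insS σ i0) (insV v B)).th p) = _
      rw [if_neg h1, if_neg h2]
    have hfree : ∀ l, ¬ (dia (insS σ i0) (insV v B)).Pas (some i0) l := fun l hl =>
      h.n1 l (cr_pas_crs hl)
    have hlast : ∀ l, (dia (insS σ i0) (insV v B)).Pas (some a) l → l ≠ none →
        (dia (insS σ i0) (insV v B)).pos (some a) l <
          (dia (insS σ i0) (insV v B)).pos (some a) none := fun l hl hn =>
      h.last hα hβ hab e (cr_pas_crs hl) hn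
    have hfirst : ∀ l, (dia (insS σ i0) (insV v B)).Pas none l → l ≠ some a →
        (dia (insS σ i0) (insV v B)).pos none (some a) <
          (dia (insS σ i0) (insV v B)).pos none l := fun l hl hn =>
      absurd (h.n2 l (cr_pas_crs hl)) hn
    have hfin : ∀ X : Option I × Option I, X ∈ (dia (insS σ i0) (insV v B)).C →
        (X = (some a, none) ∨ X = (none, some a)) → ∀ p q : Option I,
        (p, q) ∈ (dia (insS σ i0) (insV v B)).C.erase X ↔
          ∃ i j, p = some i ∧ q = some j ∧ (i, j) ∈ (dia σ v).C := by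
      intro X hX hX' p q
      rw [Finset.mem_erase]
      constructor
      · rintro ⟨h1, h2⟩
        rcases hnew p q h2 with ⟨e1, e2⟩ | ⟨e1, e2⟩ | h3
        · exfalso
          subst e1
          subst e2
          rcases hX' with e3 | e3
          · rw [e3] at hX
            exact ok'.asym _ _ hX h2
          · exact h1 e3.symm
        · exfalso
          subst e1
          subst e2
          rcases hX' with e3 | e3
          · exact h1 e3.symm
          · rw [e3] at hX
            exact ok'.asym _ _ hX h2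
        · exact h3
      · rintro ⟨i, j, e1, e2, hm⟩
        subst e1
        subst e2
        refine ⟨?_, hold i j hm⟩
        rcases hX' with e3 | e3 <;> rw [e3] <;> simp
    have hw : ∀ X : Option I × Option I, X ∈ (dia (insS σ i0) (insV v B)).C →
        (dia (insS σ i0) (insV v B)).w = Dia.w ⟨(dia (insS σ i0) (insV v B)).C.erase X,
          (dia (insS σ i0) (insV v B)).pos, t, (dia (insS σ i0) (insV v B)).ep,
          (dia (insS σ i0) (insV v B)).b⟩ + (dia (insS σ i0) (insV v B)).ep X.1 X.2 := by
      intro X hX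
      unfold Dia.w
      rw [Finset.sum_erase_add _ _ hX]
    have hcase : ((some a, none) ∈ (dia (insS σ i0) (insV v B)).C) ∨
        ((none, some a) ∈ (dia (insS σ i0) (insV v B)).C) := by
      rcases lt_or_gt_of_ne (hG'.hgt _ _ hcr) with h1 | h1
      · exact Or.inr (cr_mem_dia.2 ⟨hcr.symm', h1⟩)
      · exact Or.inl (cr_mem_dia.2 ⟨hcr, h1⟩)
    rcases hcase with hX | hX
    · have key := Dia.Z_R1_over (insS σ i0) N (dia (insS σ i0) (insV v B))
        ⟨(dia (insS σ i0) (insV v B)).C.erase (some a, none),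
          (dia (insS σ i0) (insV v B)).pos, t, (dia (insS σ i0) (insV v B)).ep,
          (dia (insS σ i0) (insV v B)).b⟩ ok' (some a)
        (by rw [hne0]; exact fun e => ha0 (Option.some.inj e).symm)
        (by rw [hne0, hne1]; simp) (by rw [hne0, hne1]; exact hX)
        (by rw [hne0]; exact hfree) (by rw [hne0, hne1]; exact hlast)
        (by rw [hne0, hne1]; exact hfirst)
        (by rw [hne0, hne1, hb1, t1, t2, he1]; exact c1)
        (by rw [hne0, hne1]) (fun _ _ _ => rfl) (fun _ _ => rfl) (fun _ _ => rfl)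
        (by rw [hne0]; exact hto)
        (by rw [hne0, hne1, t1, t2, he1]; show t (some a) + t (some i0) = _; rw [hta, hti, add_zero])
      rw [hne0, hne1, he1] at key
      have fin := hN.Z_old hP (Finset.erase_subset _ _) (hfin _ hX (Or.inl rfl)) t
        (fun b h1 h2 => by
          rw [hto _ (fun e => h2 (by rw [Option.some.inj e, haS]))
            (fun e => h1 (Option.some.inj e))]
          exact t4 b h1 h2)
        (by rw [← hadef, hta, hti, htn, t5, t6, c2]; ring) N
      have w1 := hw _ hX
      rw [fin.2] at w1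
      simp only at w1
      rw [he1] at w1
      rw [key, fin.1, w1, ← mul_assoc, ← Real.rpow_add (by norm_num)]
      congr 2
      ring
    · have key := Dia.Z_R1_under (insS σ i0) N (dia (insS σ i0) (insV v B))
        ⟨(dia (insS σ i0) (insV v B)).C.erase (none, some a),
          (dia (insS σ i0) (insV v B)).pos, t, (dia (insS σ i0) (insV v B)).ep,
          (dia (insS σ i0) (insV v B)).b⟩ ok' (some a)
        (by rw [hne0]; exact fun e => ha0 (Option.some.inj e).symm)
        (by rw [hne0, hne1]; simp) (by rw [hne0, hne1]; exact hX)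
        (by rw [hne0]; exact hfree) (by rw [hne0, hne1]; exact hlast)
        (by rw [hne0, hne1]; exact hfirst)
        (by rw [hne0, hne1, hb2, t1, t2, he2, c1]; ring)
        (by rw [hne0, hne1]) (fun _ _ _ => rfl) (fun _ _ => rfl) (fun _ _ => rfl)
        (by rw [hne0]; exact hto)
        (by rw [hne0, hne1, t1, t2, he2]; show t (some a) + t (some i0) = _; rw [hta, hti]; ring)
      rw [hne0, hne1, he2] at key
      have fin := hN.Z_old hP (Finset.erase_subset _ _) (hfin _ hX (Or.inr rfl)) t
        (fun b h1 h2 => by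
          rw [hto _ (fun e => h2 (by rw [Option.some.inj e, haS]))
            (fun e => h1 (Option.some.inj e))]
          exact t4 b h1 h2)
        (by rw [← hadef, hta, hti, htn, t5, t6, c2]; ring) N
      have w1 := hw _ hX
      rw [fin.2] at w1
      simp only at w1
      rw [he2] at w1
      rw [key, fin.1, w1, ← mul_assoc, ← Real.rpow_add (by norm_num)]
      congr 2
      ring
  · -- no crossing
    have hno := h.cr2 e
    rw [← hadef] at hno
    have hx0 : x ≠ 0 := (cr_slit_ne_zero h.slit).1
    have c := turn_cornA0 (x := x) (y := y) (z := z) hx0 hnd (by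
      intro α β h1 h2
      rw [← hyz']
      exact e α β h1 h2)
    have fin := hN.Z_old hP (Finset.Subset.refl _) (t := (dia (insS σ i0) (insV v B)).th) (by
      intro p q
      constructor
      · intro hm
        rcases hnew p q hm with ⟨e1, e2⟩ | ⟨e1, e2⟩ | h3
        · subst e1
          subst e2
          exact absurd (cr_mem_dia.1 hm).1.symm' hno
        · subst e1
          subst e2
          exact absurd (cr_mem_dia.1 hm).1 hno
        · exact h3
      · rintro ⟨i, j, e1, e2, hm⟩
        subst e1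
        subst e2
        exact hold i j hm) t4
      (by rw [← hadef, t1, t2, t3, t5, t6, c]; ring) N
    rw [← fin.1, ← fin.2]

end

end Pool.Agent.Lib.MP_ca0971_gt.OT
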