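import Pool.Agent.Lib.MP_ca0971_gt.OT.Cor.Ins
import Pool.Agent.Lib.MP_ca0971_gt.OT.Cor.CrBase
import Pool.Agent.Lib.MP_ca0971_gt.OT.Ang

/-!
# Project OT, Cor: corner at the end of the edge i0

The mirror image of CornA: the vertex B is inserted on the edge i0 from A' = v i0 to C = v (σ i0); the
projected triangle A' B C meets no other edge than the edge c = σ i0 which starts in C (and i0 and
a = σ⁻¹ i0). The edge a has the direction of i0.

x = dd c, y = B - A', z = C - B, W = v (σ c) = C + x. If x is in the open cone of -z and -(y+z), the edge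
c crosses A' B (crossing of some i0 and some c; middle edge none): Dia.Z_R1_over / under for
i = some i0, turn_cornC. Otherwise no crossing, turn_cornC0. Then Dia.Z_free (edge none and, after the R1
move, edge some i0 without crossings) and Dia.Z_ins.
-/

set_option autoImplicit false

namespace Pool.Agent.Lib.MP_ca0971_gt.OT

open Finset Filter Topology

variable {I : Type} [Fintype I] [DecidableEq I] {σ : Equiv.Perm I}

structure CornC (σ : Equiv.Perm I) (v : I → E) (i0 : I) (B : E) : Prop where
  gen : Gen σ v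
  nd : dt (B.1 - (v i0).1) ((v (σ i0)).1 - (v i0).1) ≠ 0
  free : ∀ j, j ≠ i0 → σ j ≠ i0 → j ≠ σ i0 →
    Disjoint (sg σ v j) (convexHull ℝ {(v i0).1, B.1, (v (σ i0)).1})
  dir : ∃ r : ℝ, 0 < r ∧ dd σ v (σ.symm i0) = (r : ℂ) * dd σ v i0
  back : (v (σ (σ i0))).1 ∉ convexHull ℝ {(v i0).1, B.1, (v (σ i0)).1}
  slit : dd σ v (σ i0) / ((v (σ i0)).1 - B.1) ∈ Complex.slitPlane
  hgt : Disjoint (segment ℝ (v i0) B) (segment ℝ (v (σ i0)) (v (σ (σ i0))))

section

variable {v : I → E} {i0 : I} {B : E}

omit [Fintype I] [DecidableEq I] in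
theorem CornC.nd' (h : CornC σ v i0 B) : dt (B.1 - (v i0).1) (dd σ v i0) ≠ 0 := h.nd

omit [Fintype I] [DecidableEq I] in
theorem CornC.nd2 (h : CornC σ v i0 B) :
    dt (B.1 - (v (σ i0)).1) ((v i0).1 - (v (σ i0)).1) ≠ 0 := by
  intro e
  apply h.nd
  rw [← neg_eq_zero, ← e]
  unfold dt
  simp
  ring

omit [Fintype I] [DecidableEq I] in
theorem CornC.hi (h : CornC σ v i0 B) : σ i0 ≠ i0 := by
  intro e
  have := h.nd
  rw [e, sub_self] at this
  unfold dt at this
  simp at this

omit [Fintype I] [DecidableEq I] in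
theorem CornC.a0 (h : CornC σ v i0 B) : σ.symm i0 ≠ i0 := by
  intro e
  apply h.hi
  conv_lhs => rw [← e]
  exact σ.apply_symm_apply i0

omit [Fintype I] [DecidableEq I] in
theorem CornC.u0 (h : CornC σ v i0 B) : dd σ v i0 ≠ 0 := by
  intro e
  have := h.nd'
  rw [e] at this
  unfold dt at this
  simp at this

omit [Fintype I] [DecidableEq I] in
theorem CornC.cc (h : CornC σ v i0 B) : σ (σ i0) ≠ i0 := by
  intro e
  obtain ⟨r, hr, hd⟩ := h.dir
  have ea : σ.symm i0 = σ i0 := by
    conv_lhs => rw [← e]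
    exact σ.symm_apply_apply _
  have h1 : dd σ v (σ.symm i0) = -dd σ v i0 := by
    rw [ea]
    unfold dd
    rw [e]
    ring
  rw [h1] at hd
  have h2 : ((r : ℂ) + 1) * dd σ v i0 = 0 := by linear_combination -hd
  rcases mul_eq_zero.1 h2 with h3 | h3
  · have h4 : (((r + 1 : ℝ)) : ℂ) = 0 := by
      push_cast
      exact h3
    have := Complex.ofReal_eq_zero.1 h4
    linarith
  · exact h.u0 h3

omit [Fintype I] [DecidableEq I] in
/-- Points of the edge before. -/
theorem CornC.mem_a (h : CornC σ v i0 B) {p : ℂ} (hp : p ∈ sg σ v (σ.symm i0)) :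
    ∃ s : ℝ, 0 ≤ s ∧ p = (v i0).1 + (((0 : ℝ) : ℂ) * (B.1 - (v i0).1) +
      ((-s : ℝ) : ℂ) * dd σ v i0) := by
  obtain ⟨r, hr, hd⟩ := h.dir
  unfold sg at hp
  rw [Equiv.apply_symm_apply, segment_eq_image'] at hp
  obtain ⟨t, ⟨t0, t1⟩, rfl⟩ := hp
  refine ⟨(1 - t) * r, mul_nonneg (by linarith) hr.le, ?_⟩
  have e : (v i0).1 - (v (σ.symm i0)).1 = (r : ℂ) * dd σ v i0 := by
    rw [← hd]
    unfold dd
    rw [Equiv.apply_symm_apply]
  have e2 : (v (σ.symm i0)).1 = (v i0).1 - (r : ℂ) * dd σ v i0 := by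
    rw [← e]
    ring
  rw [e, e2]
  simp only [Complex.real_smul]
  push_cast
  ring

omit [Fintype I] [DecidableEq I] in
theorem CornC.mem_AB (_h : CornC σ v i0 B) {p : ℂ} (hp : p ∈ segment ℝ (v i0).1 B.1) :
    ∃ s : ℝ, 0 ≤ s ∧ s ≤ 1 ∧ p = (v i0).1 + ((s : ℂ) * (B.1 - (v i0).1) +
      ((0 : ℝ) : ℂ) * dd σ v i0) := by
  rw [segment_eq_image'] at hp
  obtain ⟨t, ⟨t0, t1⟩, rfl⟩ := hp
  refine ⟨t, t0, t1, ?_⟩
  simp only [Complex.real_smul]
  push_cast
  ring

omit [Fintype I] [DecidableEq I] in
theorem CornC.mem_BC (_h : CornC σ v i0 B) {p : ℂ} (hp : p ∈ segment ℝ B.1 (v (σ i0)).1) :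
    ∃ s : ℝ, 0 ≤ s ∧ s ≤ 1 ∧ p = (v i0).1 + (((1 - s : ℝ) : ℂ) * (B.1 - (v i0).1) +
      (s : ℂ) * dd σ v i0) := by
  rw [segment_eq_image'] at hp
  obtain ⟨t, ⟨t0, t1⟩, rfl⟩ := hp
  refine ⟨t, t0, t1, ?_⟩
  unfold dd
  simp only [Complex.real_smul]
  push_cast
  ring

omit [Fintype I] [DecidableEq I] in
theorem CornC.AB_sub (_h : CornC σ v i0 B) {p : ℂ} (hp : p ∈ segment ℝ (v i0).1 B.1) :
    p ∈ convexHull ℝ ({(v i0).1, B.1, (v (σ i0)).1} : Set ℂ) :=
  segment_subset_convexHull (by simp) (by simp) hp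

omit [Fintype I] [DecidableEq I] in
theorem CornC.BC_sub (_h : CornC σ v i0 B) {p : ℂ} (hp : p ∈ segment ℝ B.1 (v (σ i0)).1) :
    p ∈ convexHull ℝ ({(v i0).1, B.1, (v (σ i0)).1} : Set ℂ) :=
  segment_subset_convexHull (by simp) (by simp) hp

omit [Fintype I] [DecidableEq I] in
theorem CornC.AC_sub (_h : CornC σ v i0 B) {p : ℂ} (hp : p ∈ sg σ v i0) :
    p ∈ convexHull ℝ ({(v i0).1, B.1, (v (σ i0)).1} : Set ℂ) :=
  segment_subset_convexHull (by simp) (by simp) hp

omit [Fintype I] [DecidableEq I] in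
/-- Points of the triangle, seen from the end of the edge. -/
theorem CornC.hull2 (_h : CornC σ v i0 B) {a b : ℝ} (ha : 0 ≤ a) (hb : 0 ≤ b) (hab : a + b ≤ 1) :
    (v (σ i0)).1 + ((a : ℂ) * (B.1 - (v (σ i0)).1) + (b : ℂ) * ((v i0).1 - (v (σ i0)).1)) ∈
      convexHull ℝ ({(v i0).1, B.1, (v (σ i0)).1} : Set ℂ) := by
  have h1 := cr_hull_mem (A := (v i0).1) (B := B.1) (C := (v (σ i0)).1) (a := a) (b := 1 - a - b)
    ha (by linarith) (by linarith)
  convert h1 using 1
  push_cast
  ring

omit [Fintype I] [DecidableEq I] in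
/-- A free edge does not contain points of the triangle. -/
theorem CornC.off (h : CornC σ v i0 B) {j : I} {p : ℂ} (h1 : j ≠ i0) (h2 : σ j ≠ i0)
    (h3 : j ≠ σ i0) (hj : p ∈ sg σ v j)
    (hp : p ∈ convexHull ℝ ({(v i0).1, B.1, (v (σ i0)).1} : Set ℂ)) : False :=
  Set.disjoint_left.1 (h.free j h1 h2 h3) hj hp

omit [Fintype I] [DecidableEq I] in
theorem CornC.crs (h : CornC σ v i0 B) :
    (∃ α β : ℝ, 0 < α ∧ 0 < β ∧ 1 < α + β ∧ dd σ v (σ i0) =
      (α : ℂ) * (B.1 - (v (σ i0)).1) + (β : ℂ) * ((v i0).1 - (v (σ i0)).1)) ∨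
    (∀ α β : ℝ, 0 ≤ α → 0 ≤ β → dd σ v (σ i0) ≠
      (α : ℂ) * (B.1 - (v (σ i0)).1) + (β : ℂ) * ((v i0).1 - (v (σ i0)).1)) := by
  by_cases hex : ∃ α β : ℝ, 0 ≤ α ∧ 0 ≤ β ∧ dd σ v (σ i0) =
      (α : ℂ) * (B.1 - (v (σ i0)).1) + (β : ℂ) * ((v i0).1 - (v (σ i0)).1)
  · left
    obtain ⟨α, β, ha, hb, e⟩ := hex
    have s1 := h.slit
    have s2 := h.gen.slit i0
    have ha' : 0 < α := by
      rcases eq_or_lt_of_le ha with h0 | h0
      · exfalso
        rw [← h0] at e
        refine cr_slit_ne_neg s2 (t := -β) (by linarith) ?_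
        rw [e]
        unfold dd
        push_cast
        ring
      · exact h0
    have hb' : 0 < β := by
      rcases eq_or_lt_of_le hb with h0 | h0
      · exfalso
        rw [← h0] at e
        refine cr_slit_ne_neg s1 (t := -α) (by linarith) ?_
        rw [e]
        push_cast
        ring
      · exact h0
    refine ⟨α, β, ha', hb', ?_, e⟩
    by_contra hle
    push Not at hle
    apply h.back
    have hm := h.hull2 ha hb hle
    rw [← e] at hm
    convert hm using 1
    unfold dd
    ring
  · right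
    intro α β ha hb e
    exact hex ⟨α, β, ha, hb, e⟩

omit [Fintype I] [DecidableEq I] in
theorem CornC.n0 (h : CornC σ v i0 B) (j : I) : ¬ Crs σ v i0 j := by
  intro hc
  have hm := hc.cr_mem
  refine h.off ?_ ?_ ?_ hm.2 (h.AC_sub hm.1)
  · intro e
    exact hc.1 (Or.inl e.symm)
  · intro e
    exact hc.1 (Or.inr (Or.inr e.symm))
  · intro e
    exact hc.1 (Or.inr (Or.inl e))

omit [Fintype I] in
theorem CornC.n1 (h : CornC σ v i0 B) (j : Option I)
    (hc : Crs (insS σ i0) (insV v B) (some i0) j) : j = some (σ i0) := by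
  have hm := hc.cr_mem
  rw [cr_sg0] at hm
  rcases j with _ | j
  · exact absurd (cr_adj0n i0) hc.1
  · by_cases h1 : j = i0
    · exact absurd (Or.inl (by rw [h1])) hc.1
    · rw [cr_sg v B i0 h1] at hm
      by_cases h2 : σ j = i0
      · exact absurd (cr_adj0 i0 h1 h2).symm' hc.1
      · by_cases h3 : j = σ i0
        · rw [h3]
        · exact absurd (h.AB_sub hm.1) fun hh => h.off h1 h2 h3 hm.2 hh

omit [Fintype I] in
theorem CornC.n2 (h : CornC σ v i0 B) (j : Option I) :
    ¬ Crs (insS σ i0) (insV v B) none j := by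
  intro hc
  have hm := hc.cr_mem
  rw [cr_sgn] at hm
  rcases j with _ | j
  · exact hc.1 (Or.inl rfl)
  · by_cases h1 : j = i0
    · subst h1
      exact hc.1 (cr_adj0n j).symm'
    · rw [cr_sg v B i0 h1] at hm
      by_cases h3 : j = σ i0
      · subst h3
        exact hc.1 (cr_adjn i0)
      · by_cases h2 : σ j = i0
        · have hj : j = σ.symm i0 := by rw [← h2, Equiv.symm_apply_apply]
          rw [hj] at hm
          obtain ⟨s, s0, e1⟩ := h.mem_a hm.2
          obtain ⟨t, t0, -, e2⟩ := h.mem_BC hm.1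
          rw [e2] at e1
          have := (cr_lin_unique h.nd' (add_left_cancel e1)).1
          have := (cr_lin_unique h.nd' (add_left_cancel e1)).2
          linarith
        · exact h.off h1 h2 h3 hm.2 (h.BC_sub hm.1)

omit [Fintype I] in
/-- In the first case: the positions of the crossing. -/
theorem CornC.cr1 (h : CornC σ v i0 B) {α β : ℝ} (ha : 0 < α) (hb : 0 < β) (hab : 1 < α + β)
    (e : dd σ v (σ i0) =
      (α : ℂ) * (B.1 - (v (σ i0)).1) + (β : ℂ) * ((v i0).1 - (v (σ i0)).1)) :
    Crs (insS σ i0) (insV v B) (some i0) (some (σ i0)) ∧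
      par (insS σ i0) (insV v B) (some (σ i0)) (some i0) = 1 / (α + β) := by
  have hs : 0 < α + β := by linarith
  have hs' : ((α : ℂ) + (β : ℂ)) ≠ 0 := by
    rw [← Complex.ofReal_add]
    exact Complex.ofReal_ne_zero.2 hs.ne'
  have hd1 := cr_dd0 (σ := σ) v B i0
  have hd2 := cr_dd (σ := σ) v B i0 h.hi
  have hdt : dt (dd (insS σ i0) (insV v B) (some i0)) (dd (insS σ i0) (insV v B) (some (σ i0))) =
      -((α + β) * dt (B.1 - (v i0).1) ((v (σ i0)).1 - (v i0).1)) := by
    rw [hd1, hd2, e]
    unfold dt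
    simp
    ring
  have hne : dt (dd (insS σ i0) (insV v B) (some i0))
      (dd (insS σ i0) (insV v B) (some (σ i0))) ≠ 0 := by
    rw [hdt]
    exact neg_ne_zero.2 (mul_ne_zero hs.ne' h.nd)
  have hpt := par_unique (σ := insS σ i0) (insV v B) hne (s := α / (α + β))
    (t := 1 / (α + β)) (by
      rw [hd1, hd2, e]
      show (v i0).1 + _ = (v (σ i0)).1 + _
      push_cast
      field_simp
      ring)
  have q1 : 1 / (α + β) < 1 := by
    rw [div_lt_one hs]
    exact hab
  have q2 : 0 < 1 / (α + β) := by positivity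
  refine ⟨⟨?_, hne, ?_, ?_, ?_, ?_⟩, hpt.2.symm⟩
  · rintro (h1 | h1 | h1)
    · exact h.hi (Option.some.inj h1).symm
    · rw [cr_self] at h1
      exact absurd h1 (by simp)
    · rw [cr_some i0 h.hi] at h1
      exact h.cc (Option.some.inj h1).symm
  · rw [← hpt.1]
    positivity
  · rw [← hpt.1, div_lt_one hs]
    linarith
  · rw [← hpt.2]
    exact q2
  · rw [← hpt.2]
    exact q1

omit [Fintype I] in
/-- In the first case: the other crossings of the outgoing edge come after. -/
theorem CornC.first (h : CornC σ v i0 B) {α β : ℝ} (ha : 0 < α) (hb : 0 < β) (hab : 1 < α + β)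
    (e : dd σ v (σ i0) =
      (α : ℂ) * (B.1 - (v (σ i0)).1) + (β : ℂ) * ((v i0).1 - (v (σ i0)).1))
    {l : Option I} (hc : Crs (insS σ i0) (insV v B) (some (σ i0)) l) (hl : l ≠ some i0) :
    par (insS σ i0) (insV v B) (some (σ i0)) (some i0) <
      par (insS σ i0) (insV v B) (some (σ i0)) l := by
  rw [(h.cr1 ha hb hab e).2]
  by_contra hle
  push Not at hle
  rcases l with _ | l
  · exact h.n2 _ hc.symm'
  · have h1 : l ≠ i0 := by
      intro e
      exact hl (by rw [e])
    have hm := hc.cr_mem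
    rw [cr_sg v B i0 h1] at hm
    set s := par (insS σ i0) (insV v B) (some (σ i0)) (some l) with hs
    have hs0 : 0 < s := hc.2.2.1
    have hpos : 0 < α + β := by linarith
    have hmp : mp (insS σ i0) (insV v B) (some (σ i0)) (some l) =
        (v (σ i0)).1 + (((s * α : ℝ) : ℂ) * (B.1 - (v (σ i0)).1) +
          ((s * β : ℝ) : ℂ) * ((v i0).1 - (v (σ i0)).1)) := by
      unfold mp
      rw [← hs, cr_dd v B i0 h.hi, e]
      show (v (σ i0)).1 + _ = _
      push_cast
      ring
    have hmem : mp (insS σ i0) (insV v B) (some (σ i0)) (some l) ∈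
        convexHull ℝ ({(v i0).1, B.1, (v (σ i0)).1} : Set ℂ) := by
      rw [hmp]
      refine h.hull2 (mul_nonneg hs0.le ha.le) (mul_nonneg hs0.le hb.le) ?_
      have h7 : s * (α + β) ≤ 1 / (α + β) * (α + β) := mul_le_mul_of_nonneg_right hle hpos.le
      rw [div_mul_cancel₀ _ hpos.ne'] at h7
      linarith
    by_cases h3 : l = σ i0
    · exact hc.1 (Or.inl (by rw [h3]))
    · by_cases h2 : σ l = i0
      · have hj : l = σ.symm i0 := by rw [← h2, Equiv.symm_apply_apply]
        rw [hj] at hm
        obtain ⟨t, t0, e1⟩ := h.mem_a hm.2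
        rw [← hj, hmp] at e1
        have e2 : (v (σ i0)).1 + (((s * α : ℝ) : ℂ) * (B.1 - (v (σ i0)).1) +
            ((s * β : ℝ) : ℂ) * ((v i0).1 - (v (σ i0)).1)) =
            (v i0).1 + (((s * α : ℝ) : ℂ) * (B.1 - (v i0).1) +
              ((1 - s * α - s * β : ℝ) : ℂ) * dd σ v i0) := by
          unfold dd
          push_cast
          ring
        rw [e2] at e1
        have := (cr_lin_unique h.nd' (add_left_cancel e1)).1
        have : 0 < s * α := mul_pos hs0 ha
        linarith
      · exact h.off h1 h2 h3 hm.2 hmem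

omit [Fintype I] in
/-- In the second case there is no crossing. -/
theorem CornC.cr2 (h : CornC σ v i0 B) (e : ∀ α β : ℝ, 0 ≤ α → 0 ≤ β → dd σ v (σ i0) ≠
      (α : ℂ) * (B.1 - (v (σ i0)).1) + (β : ℂ) * ((v i0).1 - (v (σ i0)).1)) :
    ¬ Crs (insS σ i0) (insV v B) (some (σ i0)) (some i0) := by
  intro hc
  have hm := hc.cr_mem
  rw [cr_sg0] at hm
  obtain ⟨t, t0, t1, e2⟩ := h.mem_AB hm.2
  set s := par (insS σ i0) (insV v B) (some (σ i0)) (some i0) with hs
  have hs0 : 0 < s := hc.2.2.1
  refine e (t / s) ((1 - t) / s) (div_nonneg t0 hs0.le) (div_nonneg (by linarith) hs0.le) ?_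
  unfold mp at e2
  rw [← hs, cr_dd v B i0 h.hi] at e2
  have e3 : (v (σ i0)).1 + (s : ℂ) * dd σ v (σ i0) = (v i0).1 + ((t : ℂ) * (B.1 - (v i0).1) +
      ((0 : ℝ) : ℂ) * dd σ v i0) := e2
  have h7 : (s : ℂ) ≠ 0 := Complex.ofReal_ne_zero.2 hs0.ne'
  push_cast at e3 ⊢
  rw [div_mul_eq_mul_div, div_mul_eq_mul_div, ← add_div, eq_div_iff h7]
  linear_combination e3

omit [Fintype I] in
theorem CornC.newV (h : CornC σ v i0 B) : NewV σ v i0 B (some i0) (σ i0) where
  gen := h.gen
  hi := h.hi
  s1 := by
    obtain ⟨r, hr, hd⟩ := h.dir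
    refine cr_slit_of_dt ?_
    rw [hd]
    intro e
    have h1 : dt ((r : ℂ) * dd σ v i0) (B.1 - (v i0).1) =
        -r * dt (B.1 - (v i0).1) ((v (σ i0)).1 - (v i0).1) := by
      unfold dt dd
      simp
      ring
    rw [h1] at e
    rcases mul_eq_zero.1 e with h2 | h2
    · linarith
    · exact h.nd h2
  s2 := by
    refine cr_slit_of_dt ?_
    have := h.nd
    intro e
    apply this
    rw [← e]
    unfold dt
    simp
    ring
  s3 := h.slit
  q0 := h.hi
  n0 := h.n0
  n1 := fun j hj => ⟨rfl, h.n1 j hj⟩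
  n2 := fun j hj => absurd hj (h.n2 j)
  tr := by
    intro j hj hc hne
    rcases h.crs with ⟨α, β, ha, hb, hab, e⟩ | e
    · exact (h.first ha hb hab e hj hne).ne'
    · exact absurd hc (h.cr2 e)
  hh := by
    intro hc e
    have m1 : v i0 + par (insS σ i0) (insV v B) (some i0) (some (σ i0)) •
        (B - v i0) ∈ segment ℝ (v i0) B := by
      rw [segment_eq_image']
      exact ⟨_, ⟨hc.2.2.1.le, hc.2.2.2.1.le⟩, rfl⟩
    have m2 : v i0 + par (insS σ i0) (insV v B) (some i0) (some (σ i0)) •
        (B - v i0) ∈ segment ℝ (v (σ i0)) (v (σ (σ i0))) := by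
      rw [segment_eq_image']
      refine ⟨par (insS σ i0) (insV v B) (some (σ i0)) (some i0),
        ⟨hc.2.2.2.2.1.le, hc.2.2.2.2.2.le⟩, ?_⟩
      have hmp := mp_symm (σ := insS σ i0) (insV v B) hc.2.1
      unfold mp at hmp
      rw [cr_dd v B i0 h.hi, cr_dd0] at hmp
      unfold ht at e
      rw [cr_dh v B i0 h.hi] at e
      unfold dh at e
      rw [cr_self] at e
      unfold dd at hmp
      refine Prod.ext ?_ ?_
      · simp only [Prod.fst_add, Prod.smul_fst, Prod.fst_sub, Complex.real_smul]
        exact hmp.symm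
      · simp only [Prod.snd_add, Prod.smul_snd, Prod.snd_sub, smul_eq_mul]
        exact e.symm
    exact Set.disjoint_left.1 h.hgt m1 m2
  v1 := by
    intro i hi hm
    by_cases h3 : i = σ i0
    · subst h3
      obtain ⟨s, -, -, e⟩ := h.mem_AB hm
      have e1 : (v (σ i0)).1 = (v i0).1 + (((0 : ℝ) : ℂ) * (B.1 - (v i0).1) +
          ((1 : ℝ) : ℂ) * dd σ v i0) := by
        unfold dd
        push_cast
        ring
      rw [e1] at e
      have := (cr_lin_unique h.nd' (add_left_cancel e)).2
      linarith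
    · by_cases h2 : σ i = i0
      · obtain ⟨r, hr, hd⟩ := h.dir
        have hj : i = σ.symm i0 := by rw [← h2, Equiv.symm_apply_apply]
        obtain ⟨s, -, -, e⟩ := h.mem_AB hm
        have e1 : (v i).1 = (v i0).1 + (((0 : ℝ) : ℂ) * (B.1 - (v i0).1) +
            ((-r : ℝ) : ℂ) * dd σ v i0) := by
          have e4 : (v i0).1 - (v i).1 = (r : ℂ) * dd σ v i0 := by
            rw [← hd, hj]
            unfold dd
            rw [Equiv.apply_symm_apply]
          push_cast
          linear_combination -e4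
        rw [e1] at e
        have := (cr_lin_unique h.nd' (add_left_cancel e)).2
        linarith
      · exact h.off hi h2 h3 (left_mem_segment ℝ _ _) (h.AB_sub hm)
  v2 := by
    intro i hi hm
    by_cases h3 : i = i0
    · subst h3
      obtain ⟨s, -, -, e⟩ := h.mem_BC hm
      have e1 : (v i).1 = (v i).1 + (((0 : ℝ) : ℂ) * (B.1 - (v i).1) +
          ((0 : ℝ) : ℂ) * dd σ v i) := by
        push_cast
        ring
      conv_lhs at e => rw [e1]
      have h1 := (cr_lin_unique h.nd' (add_left_cancel e)).1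
      have h2 := (cr_lin_unique h.nd' (add_left_cancel e)).2
      linarith
    · by_cases h2 : σ i = i0
      · obtain ⟨r, hr, hd⟩ := h.dir
        have hj : i = σ.symm i0 := by rw [← h2, Equiv.symm_apply_apply]
        obtain ⟨s, s0, -, e⟩ := h.mem_BC hm
        have e1 : (v i).1 = (v i0).1 + (((0 : ℝ) : ℂ) * (B.1 - (v i0).1) +
            ((-r : ℝ) : ℂ) * dd σ v i0) := by
          have e4 : (v i0).1 - (v i).1 = (r : ℂ) * dd σ v i0 := by
            rw [← hd, hj]
            unfold dd
            rw [Equiv.apply_symm_apply]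
          push_cast
          linear_combination -e4
        rw [e1] at e
        have := (cr_lin_unique h.nd' (add_left_cancel e)).2
        linarith
      · exact h.off h3 h2 hi (left_mem_segment ℝ _ _) (h.BC_sub hm)
  v3 := by
    intro j hj hm
    have hB : B.1 ∈ convexHull ℝ ({(v i0).1, B.1, (v (σ i0)).1} : Set ℂ) :=
      subset_convexHull ℝ _ (by simp)
    by_cases h3 : j = σ i0
    · subst h3
      unfold sg at hm
      rw [segment_eq_image'] at hm
      obtain ⟨t, ⟨t0, t1⟩, e⟩ := hm
      have e2 : (v (σ i0)).1 - B.1 = -((t : ℂ) * dd σ v (σ i0)) := by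
        rw [← e]
        unfold dd
        simp only [Complex.real_smul]
        ring
      rcases eq_or_lt_of_le t0 with h4 | h4
      · rw [← h4] at e2
        apply (cr_slit_ne_zero h.slit).1
        rw [e2]
        push_cast
        ring
      · refine cr_slit_ne_neg h.slit (t := -(1 / t)) (by
          have : 0 < 1 / t := by positivity
          linarith) ?_
        rw [e2]
        have h5 : (t : ℂ) ≠ 0 := Complex.ofReal_ne_zero.2 h4.ne'
        push_cast
        field_simp
    · by_cases h2 : σ j = i0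
      · have hja : j = σ.symm i0 := by rw [← h2, Equiv.symm_apply_apply]
        rw [hja] at hm
        obtain ⟨s, s0, e⟩ := h.mem_a hm
        have e1 : B.1 = (v i0).1 + (((1 : ℝ) : ℂ) * (B.1 - (v i0).1) +
            ((0 : ℝ) : ℂ) * dd σ v i0) := by
          push_cast
          ring
        conv_lhs at e => rw [e1]
        have := (cr_lin_unique h.nd' (add_left_cancel e)).1
        linarith
      · exact h.off hj h2 h3 hm hB

omit [Fintype I] in
theorem CornC.gen' (h : CornC σ v i0 B) : Gen (insS σ i0) (insV v B) :=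
  h.newV.gen' (Or.inl rfl)

theorem CornC.Zh_eq (h : CornC σ v i0 B) (N : ℕ) :
    Zh (insS σ i0) (insV v B) N = Zh σ v N := by
  classical
  have hN := h.newV
  have hG' := h.gen'
  have ok' := dia_ok hG'
  obtain ⟨r, hr, hd⟩ := h.dir
  set a := σ.symm i0 with hadef
  have haS : σ a = i0 := σ.apply_symm_apply i0
  have ha0 : a ≠ i0 := h.a0
  set c := σ i0 with hcdef
  have hc0 : c ≠ i0 := h.hi
  -- directions
  set x := dd σ v c with hx
  set y := B.1 - (v i0).1 with hy
  set z := (v c).1 - B.1 with hz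
  have hyz : dd σ v i0 = y + z := by
    rw [hy, hz]
    unfold dd
    ring
  have hyz' : (v i0).1 - (v c).1 = -(y + z) := by
    rw [hy, hz]
    ring
  have hzz' : B.1 - (v c).1 = -z := by
    rw [hz]
    ring
  have hnd : dt y z ≠ 0 := by
    have h1 := h.nd'
    rw [← hy, hyz] at h1
    intro e
    apply h1
    rw [← e]
    unfold dt
    simp
    ring
  have hyz0 : y + z ≠ 0 := by
    rw [← hyz]
    exact h.u0
  have hyi : ∀ w : ℂ, turn (w / ((r : ℂ) * (y + z))) = turn (w / (y + z)) := by
    intro w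
    have hr' : (r : ℂ) ≠ 0 := Complex.ofReal_ne_zero.2 hr.ne'
    have e1 : w / ((r : ℂ) * (y + z)) = ((1 / r : ℝ) : ℂ) * (w / (y + z)) := by
      push_cast
      field_simp
    rw [e1, cr_turn_smul (by positivity)]
  -- turnings of the new polygon
  have t1 : (dia (insS σ i0) (insV v B)).th (some a) = turn (y / (y + z)) := by
    show turn (dd (insS σ i0) (insV v B) (insS σ i0 (some a)) /
      dd (insS σ i0) (insV v B) (some a)) = _
    rw [cr_some i0 ha0, haS, cr_dd0, cr_dd v B i0 ha0, hd, hyz, hyi]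
  have t2 : (dia (insS σ i0) (insV v B)).th (some i0) = turn (z / y) := by
    show turn (dd (insS σ i0) (insV v B) (insS σ i0 (some i0)) /
      dd (insS σ i0) (insV v B) (some i0)) = _
    rw [cr_self, cr_dd0, cr_ddn]
  have t3 : (dia (insS σ i0) (insV v B)).th none = turn (x / z) := by
    show turn (dd (insS σ i0) (insV v B) (insS σ i0 none) /
      dd (insS σ i0) (insV v B) none) = _
    rw [cr_none, cr_ddn, cr_dd v B i0 h.hi]
  have t4 : ∀ i, i ≠ i0 → σ i ≠ i0 →
      (dia (insS σ i0) (insV v B)).th (some i) = (dia σ v).th i := by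
    intro i h1 h2
    show turn (dd (insS σ i0) (insV v B) (insS σ i0 (some i)) /
      dd (insS σ i0) (insV v B) (some i)) = turn (dd σ v (σ i) / dd σ v i)
    rw [cr_some i0 h1, cr_dd v B i0 h2, cr_dd v B i0 h1]
  have t5 : (dia σ v).th a = 0 := by
    show turn (dd σ v (σ a) / dd σ v a) = _
    rw [haS, hd, hyz, hyi, div_self hyz0, cr_turn_one]
  have t6 : (dia σ v).th i0 = turn (x / (y + z)) := by
    show turn (dd σ v (σ i0) / dd σ v i0) = _
    rw [hyz]
  have hP := (Or.inl rfl : (some i0 : Option I) = some i0 ∨ (some i0 : Option I) = none)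
  -- the old crossings
  have hold : ∀ i j, (i, j) ∈ (dia σ v).C →
      (some i, some j) ∈ (dia (insS σ i0) (insV v B)).C := by
    intro i j hm
    have hc := cr_mem_dia.1 hm
    have hi : i ≠ i0 := by
      intro e
      subst e
      exact h.n0 j hc.1
    have hj : j ≠ i0 := by
      intro e
      subst e
      exact h.n0 i hc.1.symm'
    refine cr_mem_dia.2 ⟨(cr_crs v B i0 hi hj).2 hc.1, ?_⟩
    rw [cr_ht v B i0 hi hj, cr_ht v B i0 hj hi]
    exact hc.2
  have hold' : ∀ i j, i ≠ i0 → j ≠ i0 → (some i, some j) ∈ (dia (insS σ i0) (insV v B)).C →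
      (i, j) ∈ (dia σ v).C := by
    intro i j hi hj hm
    have hc := cr_mem_dia.1 hm
    rw [cr_ht v B i0 hi hj, cr_ht v B i0 hj hi] at hc
    exact cr_mem_dia.2 ⟨(cr_crs v B i0 hi hj).1 hc.1, hc.2⟩
  have hnew : ∀ p q : Option I, (p, q) ∈ (dia (insS σ i0) (insV v B)).C →
      (p = some i0 ∧ q = some c) ∨ (p = some c ∧ q = some i0) ∨
        ∃ i j, p = some i ∧ q = some j ∧ (i, j) ∈ (dia σ v).C := by
    intro p q hm
    rcases hN.old (cr_mem_dia.1 hm).1 with h1 | h1 | ⟨i, j, e1, e2, hi, hj, -⟩
    · exact Or.inl h1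
    · exact Or.inr (Or.inl h1)
    · subst e1
      subst e2
      exact Or.inr (Or.inr ⟨i, j, rfl, rfl, hold' i j hi hj hm⟩)
  unfold Zh Dia.Zh
  rcases h.crs with ⟨α, β, hα, hβ, hab, e⟩ | e
  · -- crossing
    have hcr := (h.cr1 hα hβ hab e).1
    have e' : x = (α : ℂ) * (-z) + (β : ℂ) * (-(y + z)) := by
      rw [← hyz', ← hzz']
      exact e
    obtain ⟨c1, c2⟩ := turn_cornC hα hβ hnd e'
    have hyx : dt y x ≠ 0 := by
      have := hcr.2.1
      rw [cr_dd v B i0 h.hi, cr_dd0] at this
      exact this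
    have hb1 : (dia (insS σ i0) (insV v B)).b (some i0) (some c) = turn (x / y) := by
      show turn (dd (insS σ i0) (insV v B) (some c) / dd (insS σ i0) (insV v B) (some i0)) = _
      rw [cr_dd0, cr_dd v B i0 hc0]
    have hb2 : (dia (insS σ i0) (insV v B)).b (some c) (some i0) = -turn (x / y) := by
      show turn (dd (insS σ i0) (insV v B) (some i0) / dd (insS σ i0) (insV v B) (some c)) = _
      rw [cr_dd0, cr_dd v B i0 hc0]
      exact turn_neg hyx
    have he1 : (dia (insS σ i0) (insV v B)).ep (some i0) (some c) = sg1 (dt y x) := by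
      show (if 0 < dt (dd (insS σ i0) (insV v B) (some i0)) (dd (insS σ i0) (insV v B) (some c))
        then (1 : ℝ) else -1) = _
      rw [cr_dd0, cr_dd v B i0 hc0]
      rfl
    have he2 : (dia (insS σ i0) (insV v B)).ep (some c) (some i0) = -sg1 (dt y x) := by
      show (if 0 < dt (dd (insS σ i0) (insV v B) (some c)) (dd (insS σ i0) (insV v B) (some i0))
        then (1 : ℝ) else -1) = _
      rw [cr_dd0, cr_dd v B i0 hc0, dt_swap]
      unfold sg1
      rcases lt_or_gt_of_ne hyx with h1 | h1
      · rw [if_pos (by linarith), if_neg (by linarith)]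
        norm_num
      · rw [if_neg (by linarith), if_pos h1]
    have hne0 : (insS σ i0) (some i0) = none := cr_self i0
    have hne1 : (insS σ i0) none = some c := cr_none i0
    set t : Option I → ℝ := fun p => if p = some i0 then turn (z / y) + turn (x / z) + sg1 (dt y x)
      else if p = none then 0 else (dia (insS σ i0) (insV v B)).th p with ht
    have hti : t (some i0) = turn (z / y) + turn (x / z) + sg1 (dt y x) := if_pos rfl
    have htn : t none = 0 := by
      show (if none = some i0 then _ else if (none : Option I) = none then (0 : ℝ) else _) = 0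
      rw [if_neg (by simp), if_pos rfl]
    have hto : ∀ p, p ≠ some i0 → p ≠ none → t p = (dia (insS σ i0) (insV v B)).th p := by
      intro p h1 h2
      show (if p = some i0 then _ else if p = none then (0 : ℝ) else
        (dia (insS σ i0) (insV v B)).th p) = _
      rw [if_neg h1, if_neg h2]
    have hta : t (some a) = turn (y / (y + z)) := by
      rw [hto _ (fun e => ha0 (Option.some.inj e)) (by simp), t1]
    have hfree : ∀ l, ¬ (dia (insS σ i0) (insV v B)).Pas none l := fun l hl =>
      h.n2 l (cr_pas_crs hl)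
    have hlast : ∀ l, (dia (insS σ i0) (insV v B)).Pas (some i0) l → l ≠ some c →
        (dia (insS σ i0) (insV v B)).pos (some i0) l <
          (dia (insS σ i0) (insV v B)).pos (some i0) (some c) := fun l hl hn =>
      absurd (h.n1 l (cr_pas_crs hl)) hn
    have hfirst : ∀ l, (dia (insS σ i0) (insV v B)).Pas (some c) l → l ≠ some i0 →
        (dia (insS σ i0) (insV v B)).pos (some c) (some i0) <
          (dia (insS σ i0) (insV v B)).pos (some c) l := fun l hl hn =>
      h.first hα hβ hab e (cr_pas_crs hl) hn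
    have hfin : ∀ X : Option I × Option I, X ∈ (dia (insS σ i0) (insV v B)).C →
        (X = (some i0, some c) ∨ X = (some c, some i0)) → ∀ p q : Option I,
        (p, q) ∈ (dia (insS σ i0) (insV v B)).C.erase X ↔
          ∃ i j, p = some i ∧ q = some j ∧ (i, j) ∈ (dia σ v).C := by
      intro X hX hX' p q
      rw [Finset.mem_erase]
      constructor
      · rintro ⟨h1, h2⟩
        rcases hnew p q h2 with ⟨e1, e2⟩ | ⟨e1, e2⟩ | h3
        · exfalso
          subst e1
          subst e2
          rcases hX' with e3 | e3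
          · exact h1 e3.symm
          · rw [e3] at hX
            exact ok'.asym _ _ hX h2
        · exfalso
          subst e1
          subst e2
          rcases hX' with e3 | e3
          · rw [e3] at hX
            exact ok'.asym _ _ hX h2
          · exact h1 e3.symm
        · exact h3
      · rintro ⟨i, j, e1, e2, hm⟩
        subst e1
        subst e2
        refine ⟨?_, hold i j hm⟩
        have hc := cr_mem_dia.1 hm
        rcases hX' with e3 | e3 <;> rw [e3] <;> intro e4
        · have := Option.some.inj (Prod.mk.inj e4).1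
          subst this
          exact h.n0 j hc.1
        · have := Option.some.inj (Prod.mk.inj e4).2
          subst this
          exact h.n0 i hc.1.symm'
    have hw : ∀ X : Option I × Option I, X ∈ (dia (insS σ i0) (insV v B)).C →
        (dia (insS σ i0) (insV v B)).w = Dia.w ⟨(dia (insS σ i0) (insV v B)).C.erase X,
          (dia (insS σ i0) (insV v B)).pos, t, (dia (insS σ i0) (insV v B)).ep,
          (dia (insS σ i0) (insV v B)).b⟩ + (dia (insS σ i0) (insV v B)).ep X.1 X.2 := by
      intro X hX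
      unfold Dia.w
      rw [Finset.sum_erase_add _ _ hX]
    have hcase : ((some i0, some c) ∈ (dia (insS σ i0) (insV v B)).C) ∨
        ((some c, some i0) ∈ (dia (insS σ i0) (insV v B)).C) := by
      rcases lt_or_gt_of_ne (hG'.hgt _ _ hcr) with h1 | h1
      · exact Or.inr (cr_mem_dia.2 ⟨hcr.symm', h1⟩)
      · exact Or.inl (cr_mem_dia.2 ⟨hcr, h1⟩)
    have hic : (some c : Option I) ≠ some i0 := fun e => hc0 (Option.some.inj e)
    rcases hcase with hX | hX
    · have key := Dia.Z_R1_over (insS σ i0) N (dia (insS σ i0) (insV v B))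
        ⟨(dia (insS σ i0) (insV v B)).C.erase (some i0, some c),
          (dia (insS σ i0) (insV v B)).pos, t, (dia (insS σ i0) (insV v B)).ep,
          (dia (insS σ i0) (insV v B)).b⟩ ok' (some i0)
        (by rw [hne0]; simp)
        (by rw [hne0, hne1]; exact hic) (by rw [hne0, hne1]; exact hX)
        (by rw [hne0]; exact hfree) (by rw [hne0, hne1]; exact hlast)
        (by rw [hne0, hne1]; exact hfirst)
        (by rw [hne0, hne1, hb1, t2, t3, he1]; exact c1)
        (by rw [hne0, hne1]) (fun _ _ _ => rfl) (fun _ _ => rfl) (fun _ _ => rfl)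
        (by rw [hne0]; exact hto)
        (by rw [hne0, hne1, t2, t3, he1]; show t (some i0) + t none = _; rw [hti, htn, add_zero])
      rw [hne0, hne1, he1] at key
      have fin := hN.Z_old hP (Finset.erase_subset _ _) (hfin _ hX (Or.inl rfl)) t
        (fun b h1 h2 => by
          rw [hto _ (fun e => h1 (Option.some.inj e)) (by simp)]
          exact t4 b h1 h2)
        (by rw [← hadef, hta, hti, htn, t5, t6, c2]; ring) N
      have w1 := hw _ hX
      rw [fin.2] at w1
      simp only at w1
      rw [he1] at w1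
      rw [key, fin.1, w1, ← mul_assoc, ← Real.rpow_add (by norm_num)]
      congr 2
      ring
    · have key := Dia.Z_R1_under (insS σ i0) N (dia (insS σ i0) (insV v B))
        ⟨(dia (insS σ i0) (insV v B)).C.erase (some c, some i0),
          (dia (insS σ i0) (insV v B)).pos, t, (dia (insS σ i0) (insV v B)).ep,
          (dia (insS σ i0) (insV v B)).b⟩ ok' (some i0)
        (by rw [hne0]; simp)
        (by rw [hne0, hne1]; exact hic) (by rw [hne0, hne1]; exact hX)
        (by rw [hne0]; exact hfree) (by rw [hne0, hne1]; exact hlast)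
        (by rw [hne0, hne1]; exact hfirst)
        (by rw [hne0, hne1, hb2, t2, t3, he2, c1]; ring)
        (by rw [hne0, hne1]) (fun _ _ _ => rfl) (fun _ _ => rfl) (fun _ _ => rfl)
        (by rw [hne0]; exact hto)
        (by rw [hne0, hne1, t2, t3, he2]; show t (some i0) + t none = _; rw [hti, htn]; ring)
      rw [hne0, hne1, he2] at key
      have fin := hN.Z_old hP (Finset.erase_subset _ _) (hfin _ hX (Or.inr rfl)) t
        (fun b h1 h2 => by
          rw [hto _ (fun e => h1 (Option.some.inj e)) (by simp)]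
          exact t4 b h1 h2)
        (by rw [← hadef, hta, hti, htn, t5, t6, c2]; ring) N
      have w1 := hw _ hX
      rw [fin.2] at w1
      simp only at w1
      rw [he2] at w1
      rw [key, fin.1, w1, ← mul_assoc, ← Real.rpow_add (by norm_num)]
      congr 2
      ring
  · -- no crossing
    have hno := h.cr2 e
    have hx0 : x ≠ 0 := (cr_slit_ne_zero h.slit).2
    have c' := turn_cornC0 (x := x) (y := y) (z := z) hx0 hnd (by
      intro α β h1 h2
      rw [← hyz', ← hzz']
      exact e α β h1 h2)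
    have fin := hN.Z_old hP (Finset.Subset.refl _) (t := (dia (insS σ i0) (insV v B)).th) (by
      intro p q
      constructor
      · intro hm
        rcases hnew p q hm with ⟨e1, e2⟩ | ⟨e1, e2⟩ | h3
        · subst e1
          subst e2
          exact absurd (cr_mem_dia.1 hm).1.symm' hno
        · subst e1
          subst e2
          exact absurd (cr_mem_dia.1 hm).1 hno
        · exact h3
      · rintro ⟨i, j, e1, e2, hm⟩
        subst e1
        subst e2
        exact hold i j hm) t4
      (by rw [← hadef, t1, t2, t3, t5, t6, c']; ring) N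
    rw [← fin.1, ← fin.2]

end

end Pool.Agent.Lib.MP_ca0971_gt.OT
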