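import Pool.Agent.Lib.MP_ca0971_gt.OT.Loc.Sym

/-!
# Project OT, Cor: insertion of a straight vertex, formulas
-/

set_option autoImplicit false

namespace Pool.Agent.Lib.MP_ca0971_gt.OT

open Finset Filter Topology

variable {I : Type} [DecidableEq I] {σ : Equiv.Perm I}

/-! ### The permutation -/

theorem insS_ne {i0 i : I} (h : i ≠ i0) : insS σ i0 (some i) = some (σ i) := by
  unfold insS
  rw [Equiv.Perm.mul_apply, Equiv.optionCongr_apply, Option.map_some]
  exact Equiv.swap_apply_of_ne_of_ne (by simp) (fun k => h (σ.injective (Option.some.inj k)))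

theorem insS_some (i0 : I) : insS σ i0 (some i0) = none := by
  unfold insS
  rw [Equiv.Perm.mul_apply, Equiv.optionCongr_apply, Option.map_some]
  exact Equiv.swap_apply_right _ _

theorem insS_none (i0 : I) : insS σ i0 none = some (σ i0) := by
  unfold insS
  rw [Equiv.Perm.mul_apply, Equiv.optionCongr_apply, Option.map_none]
  exact Equiv.swap_apply_left _ _

/-- length of the half -/
noncomputable def scl (i0 : I) (τ : ℝ) (x : Option I) : ℝ :=
  x.elim (1 - τ) fun i => if i = i0 then τ else 1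

/-- start of the half -/
noncomputable def off (τ : ℝ) (x : Option I) : ℝ := x.elim τ fun _ => 0

/-- the polygon with the new vertex -/
noncomputable def nv (σ : Equiv.Perm I) (v : I → E) (i0 : I) (τ : ℝ) : Option I → E :=
  insV v (AffineMap.lineMap (v i0) (v (σ i0)) τ)

variable {v : I → E} {i0 : I} {τ : ℝ}

theorem scl_pos (h0 : 0 < τ) (h1 : τ < 1) (x : Option I) : 0 < scl i0 τ x := by
  unfold scl
  cases x with
  | none =>
    change 0 < 1 - τ
    linarith
  | some i =>
    change 0 < if i = i0 then τ else 1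
    split_ifs
    · exact h0
    · exact one_pos

omit [DecidableEq I] in
theorem off_nonneg (h0 : 0 < τ) (x : Option I) : 0 ≤ off τ x := by
  unfold off
  cases x with
  | none => exact h0.le
  | some i => exact le_refl _

omit [DecidableEq I] in
theorem nv_fst (x : Option I) :
    (nv σ v i0 τ x).1 = (v (x.getD i0)).1 + (off τ x : ℂ) * dd σ v (x.getD i0) := by
  cases x with
  | none =>
    change (AffineMap.lineMap (v i0) (v (σ i0)) τ).1 = (v i0).1 + (τ : ℂ) * dd σ v i0
    rw [AffineMap.lineMap_apply, vsub_eq_sub, vadd_eq_add, Prod.fst_add, Prod.smul_fst,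
      Prod.fst_sub, Complex.real_smul, add_comm]
    rfl
  | some i =>
    change (v i).1 = (v i).1 + ((0 : ℝ) : ℂ) * dd σ v i
    rw [Complex.ofReal_zero, zero_mul, add_zero]

omit [DecidableEq I] in
theorem nv_snd (x : Option I) :
    (nv σ v i0 τ x).2 = (v (x.getD i0)).2 + off τ x * dh σ v (x.getD i0) := by
  cases x with
  | none =>
    change (AffineMap.lineMap (v i0) (v (σ i0)) τ).2 = (v i0).2 + τ * dh σ v i0
    rw [AffineMap.lineMap_apply, vsub_eq_sub, vadd_eq_add, Prod.snd_add, Prod.smul_snd,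
      Prod.snd_sub, smul_eq_mul, add_comm]
    rfl
  | some i =>
    change (v i).2 = (v i).2 + (0 : ℝ) * dh σ v i
    rw [zero_mul, add_zero]

/-- the end of the half -/
theorem nv_end (x : Option I) :
    (nv σ v i0 τ (insS σ i0 x)).1 = (v (x.getD i0)).1 +
      ((off τ x + scl i0 τ x : ℝ) : ℂ) * dd σ v (x.getD i0) := by
  have hd : ∀ i, (v (σ i)).1 = (v i).1 + dd σ v i := by
    intro i
    unfold dd
    ring
  cases x with
  | none =>
    rw [insS_none, nv_fst]
    change (v (σ i0)).1 + ((0 : ℝ) : ℂ) * _ = (v i0).1 + ((τ + (1 - τ) : ℝ) : ℂ) * dd σ v i0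
    rw [hd, Complex.ofReal_zero, zero_mul, add_zero]
    have : τ + (1 - τ) = 1 := by ring
    rw [this, Complex.ofReal_one, one_mul]
  | some i =>
    by_cases h : i = i0
    · subst h
      rw [insS_some, nv_fst]
      have : scl i τ (some i) = τ := if_pos rfl
      rw [this]
      change (v i).1 + (τ : ℂ) * dd σ v i = (v i).1 + (((0 : ℝ) + τ : ℝ) : ℂ) * dd σ v i
      rw [zero_add]
    · rw [insS_ne h, nv_fst]
      have : scl i0 τ (some i) = 1 := if_neg h
      rw [this]
      change (v (σ i)).1 + ((0 : ℝ) : ℂ) * _ = (v i).1 + (((0 : ℝ) + 1 : ℝ) : ℂ) * dd σ v i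
      rw [hd, Complex.ofReal_zero, zero_mul, add_zero, zero_add, Complex.ofReal_one, one_mul]

theorem nv_end2 (x : Option I) :
    (nv σ v i0 τ (insS σ i0 x)).2 = (v (x.getD i0)).2 +
      (off τ x + scl i0 τ x) * dh σ v (x.getD i0) := by
  have hd : ∀ i, (v (σ i)).2 = (v i).2 + dh σ v i := by
    intro i
    unfold dh
    ring
  cases x with
  | none =>
    rw [insS_none, nv_snd]
    change (v (σ i0)).2 + (0 : ℝ) * _ = (v i0).2 + (τ + (1 - τ)) * dh σ v i0
    rw [hd]
    ring
  | some i =>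
    by_cases h : i = i0
    · subst h
      rw [insS_some, nv_snd]
      have : scl i τ (some i) = τ := if_pos rfl
      rw [this]
      change (v i).2 + τ * dh σ v i = (v i).2 + (0 + τ) * dh σ v i
      rw [zero_add]
    · rw [insS_ne h, nv_snd]
      have : scl i0 τ (some i) = 1 := if_neg h
      rw [this]
      change (v (σ i)).2 + (0 : ℝ) * _ = (v i).2 + (0 + 1) * dh σ v i
      rw [hd]
      ring

theorem dd_nv (x : Option I) :
    dd (insS σ i0) (nv σ v i0 τ) x = (scl i0 τ x : ℂ) * dd σ v (x.getD i0) := by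
  have h : dd (insS σ i0) (nv σ v i0 τ) x =
      (nv σ v i0 τ (insS σ i0 x)).1 - (nv σ v i0 τ x).1 := rfl
  rw [h, nv_end, nv_fst]
  push_cast
  ring

theorem dh_nv (x : Option I) :
    dh (insS σ i0) (nv σ v i0 τ) x = scl i0 τ x * dh σ v (x.getD i0) := by
  have h : dh (insS σ i0) (nv σ v i0 τ) x =
      (nv σ v i0 τ (insS σ i0 x)).2 - (nv σ v i0 τ x).2 := rfl
  rw [h, nv_end2, nv_snd]
  ring

omit [DecidableEq I] in
theorem ins_dt_mul (a b : ℝ) (x y : ℂ) : dt ((a : ℂ) * x) ((b : ℂ) * y) = a * b * dt x y := by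
  unfold dt
  simp only [Complex.re_ofReal_mul, Complex.im_ofReal_mul]
  ring

theorem dt_nv (x y : Option I) :
    dt (dd (insS σ i0) (nv σ v i0 τ) x) (dd (insS σ i0) (nv σ v i0 τ) y) =
      scl i0 τ x * scl i0 τ y * dt (dd σ v (x.getD i0)) (dd σ v (y.getD i0)) := by
  rw [dd_nv, dd_nv, ins_dt_mul]

theorem dt_nv_ne (h0 : 0 < τ) (h1 : τ < 1) (x y : Option I) :
    dt (dd (insS σ i0) (nv σ v i0 τ) x) (dd (insS σ i0) (nv σ v i0 τ) y) ≠ 0 ↔
      dt (dd σ v (x.getD i0)) (dd σ v (y.getD i0)) ≠ 0 := by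
  rw [dt_nv]
  have := (scl_pos (i0 := i0) h0 h1 x).ne'
  have := (scl_pos (i0 := i0) h0 h1 y).ne'
  simp only [ne_eq, mul_eq_zero]
  tauto

theorem par_nv (h0 : 0 < τ) (h1 : τ < 1) {x y : Option I}
    (h : dt (dd σ v (x.getD i0)) (dd σ v (y.getD i0)) ≠ 0) :
    par (insS σ i0) (nv σ v i0 τ) x y =
      (par σ v (x.getD i0) (y.getD i0) - off τ x) / scl i0 τ x := by
  have hx := (scl_pos (i0 := i0) h0 h1 x).ne'
  have hy := (scl_pos (i0 := i0) h0 h1 y).ne'
  unfold par
  rw [dt_nv, nv_fst, nv_fst, dd_nv]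
  have e : dt ((v (y.getD i0)).1 + (off τ y : ℂ) * dd σ v (y.getD i0) -
      ((v (x.getD i0)).1 + (off τ x : ℂ) * dd σ v (x.getD i0)))
      ((scl i0 τ y : ℂ) * dd σ v (y.getD i0)) = scl i0 τ y *
      (dt ((v (y.getD i0)).1 - (v (x.getD i0)).1) (dd σ v (y.getD i0)) -
        off τ x * dt (dd σ v (x.getD i0)) (dd σ v (y.getD i0))) := by
    unfold dt
    simp only [Complex.re_ofReal_mul, Complex.im_ofReal_mul, Complex.add_re, Complex.add_im,
      Complex.sub_re, Complex.sub_im]
    ring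
  rw [e]
  field_simp

theorem ht_nv (h0 : 0 < τ) (h1 : τ < 1) {x y : Option I}
    (h : dt (dd σ v (x.getD i0)) (dd σ v (y.getD i0)) ≠ 0) :
    ht (insS σ i0) (nv σ v i0 τ) x y = ht σ v (x.getD i0) (y.getD i0) := by
  have hx := (scl_pos (i0 := i0) h0 h1 x).ne'
  have e1 : ht (insS σ i0) (nv σ v i0 τ) x y = (nv σ v i0 τ x).2 +
    par (insS σ i0) (nv σ v i0 τ) x y * dh (insS σ i0) (nv σ v i0 τ) x := rfl
  rw [e1, par_nv h0 h1 h, nv_snd, dh_nv]
  unfold ht
  field_simp
  ring

omit [DecidableEq I] in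
/-- consecutive edges -/
theorem ins_par_next {i : I} (h : dt (dd σ v i) (dd σ v (σ i)) ≠ 0) :
    par σ v i (σ i) = 1 ∧ par σ v (σ i) i = 0 := by
  have h2 : (v i).1 + ((1 : ℝ) : ℂ) * dd σ v i = (v (σ i)).1 + ((0 : ℝ) : ℂ) * dd σ v (σ i) := by
    rw [Complex.ofReal_one, Complex.ofReal_zero, one_mul, zero_mul, add_zero]
    unfold dd
    ring
  have h3 := par_unique v h h2
  exact ⟨h3.1.symm, h3.2.symm⟩

/-- the condition on the position -/
theorem pos_nv (h0 : 0 < τ) (h1 : τ < 1) (x : Option I) (p : ℝ) :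
    (0 < (p - off τ x) / scl i0 τ x ∧ (p - off τ x) / scl i0 τ x < 1) ↔
      0 < p ∧ p < 1 ∧ (x = some i0 → p < τ) ∧ (x = none → τ < p) := by
  have hx := scl_pos (i0 := i0) h0 h1 x
  rw [div_pos_iff_of_pos_right hx, div_lt_one hx]
  cases x with
  | none =>
    change (0 < p - τ ∧ p - τ < 1 - τ) ↔ _
    constructor
    · rintro ⟨h2, h3⟩
      exact ⟨by linarith, by linarith, fun h => by simp at h, fun _ => by linarith⟩
    · rintro ⟨h2, h3, h4, h5⟩
      have := h5 rfl
      exact ⟨by linarith, by linarith⟩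
  | some i =>
    by_cases h : i = i0
    · subst h
      have : scl i τ (some i) = τ := if_pos rfl
      rw [this]
      change (0 < p - 0 ∧ p - 0 < τ) ↔ _
      constructor
      · rintro ⟨h2, h3⟩
        exact ⟨by linarith, by linarith, fun _ => by linarith, fun h => by simp at h⟩
      · rintro ⟨h2, h3, h4, h5⟩
        have := h4 rfl
        exact ⟨by linarith, by linarith⟩
    · have : scl i0 τ (some i) = 1 := if_neg h
      rw [this]
      change (0 < p - 0 ∧ p - 0 < 1) ↔ _
      constructor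
      · rintro ⟨h2, h3⟩
        exact ⟨by linarith, by linarith, fun k => absurd (Option.some.inj k) h,
          fun h => by simp at h⟩
      · rintro ⟨h2, h3, h4, h5⟩
        exact ⟨by linarith, by linarith⟩

theorem getD_insS (x : Option I) :
    (insS σ i0 x).getD i0 = σ (x.getD i0) ∨ (insS σ i0 x).getD i0 = x.getD i0 := by
  cases x with
  | none =>
    rw [insS_none]
    exact Or.inl rfl
  | some i =>
    by_cases h : i = i0
    · subst h
      rw [insS_some]
      exact Or.inr rfl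
    · rw [insS_ne h]
      exact Or.inl rfl

/-- Crossings of the new polygon. -/
theorem crs_nv (h0 : 0 < τ) (h1 : τ < 1) (x y : Option I) :
    Crs (insS σ i0) (nv σ v i0 τ) x y ↔ Crs σ v (x.getD i0) (y.getD i0) ∧
      ((x = some i0 → par σ v i0 (y.getD i0) < τ) ∧ (x = none → τ < par σ v i0 (y.getD i0))) ∧
      ((y = some i0 → par σ v i0 (x.getD i0) < τ) ∧ (y = none → τ < par σ v i0 (x.getD i0))) := by
  have key : ∀ a b : Option I, (a = some i0 → par σ v (a.getD i0) (b.getD i0) < τ) ∧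
      (a = none → τ < par σ v (a.getD i0) (b.getD i0)) ↔
      (a = some i0 → par σ v i0 (b.getD i0) < τ) ∧ (a = none → τ < par σ v i0 (b.getD i0)) := by
    intro a b
    constructor
    · rintro ⟨h2, h3⟩
      exact ⟨fun h => by simpa [h] using h2 h, fun h => by simpa [h] using h3 h⟩
    · rintro ⟨h2, h3⟩
      exact ⟨fun h => by simpa [h] using h2 h, fun h => by simpa [h] using h3 h⟩
  constructor
  · rintro ⟨h2, h3, h4, h5, h6, h7⟩
    have hd := (dt_nv_ne h0 h1 x y).1 h3
    have hd' := dt_ne_symm hd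
    rw [par_nv h0 h1 hd] at h4 h5
    rw [par_nv h0 h1 hd'] at h6 h7
    obtain ⟨a1, a2, a3⟩ := (pos_nv h0 h1 x _).1 ⟨h4, h5⟩
    obtain ⟨b1, b2, b3⟩ := (pos_nv h0 h1 y _).1 ⟨h6, h7⟩
    refine ⟨⟨?_, hd, a1, a2, b1, b2⟩, (key x y).1 a3, (key y x).1 b3⟩
    rintro (h | h | h)
    · apply hd
      rw [h]
      unfold dt
      ring
    · rw [h] at hd b1
      rw [(ins_par_next hd).2] at b1
      exact lt_irrefl _ b1
    · rw [h] at hd' a1
      rw [(ins_par_next hd').2] at a1
      exact lt_irrefl _ a1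
  · rintro ⟨⟨h2, hd, h4, h5, h6, h7⟩, h8, h9⟩
    have hd' := dt_ne_symm hd
    have a := (pos_nv (i0 := i0) h0 h1 x _).2 ⟨h4, h5, (key x y).2 h8⟩
    have b := (pos_nv (i0 := i0) h0 h1 y _).2 ⟨h6, h7, (key y x).2 h9⟩
    refine ⟨?_, (dt_nv_ne h0 h1 x y).2 hd, ?_, ?_, ?_, ?_⟩
    · rintro (h | h | h)
      · exact h2 (Or.inl (by rw [h]))
      · rw [h] at h2
        rcases getD_insS (σ := σ) (i0 := i0) x with k | k
        · exact h2 (Or.inr (Or.inl k))
        · exact h2 (Or.inl k.symm)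
      · rw [h] at h2
        rcases getD_insS (σ := σ) (i0 := i0) y with k | k
        · exact h2 (Or.inr (Or.inr k))
        · exact h2 (Or.inl k)
    · rw [par_nv h0 h1 hd]
      exact a.1
    · rw [par_nv h0 h1 hd]
      exact a.2
    · rw [par_nv h0 h1 hd']
      exact b.1
    · rw [par_nv h0 h1 hd']
      exact b.2

end Pool.Agent.Lib.MP_ca0971_gt.OT
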