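import Pool.Agent.Lib.MP_ca0971_gt.OT.Loc.Norm
import Pool.Agent.Lib.MP_ca0971_gt.OT.DiaS
import Pool.Agent.Lib.MP_ca0971_gt.OT.Cor.InsA

/-!
# Project OT, Cor: insertion of a straight vertex
-/

set_option autoImplicit false

namespace Pool.Agent.Lib.MP_ca0971_gt.OT

open Finset Filter Topology

section Aux

theorem ins_slit {a : ℝ} (ha : 0 < a) (z : ℂ) :
    (a : ℂ) * z ∈ Complex.slitPlane ↔ z ∈ Complex.slitPlane := by
  rw [Complex.mem_slitPlane_iff, Complex.mem_slitPlane_iff, Complex.re_ofReal_mul,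
    Complex.im_ofReal_mul, mul_pos_iff_of_pos_left ha]
  constructor
  · rintro (h | h)
    · exact Or.inl h
    · exact Or.inr fun k => h (by rw [k, mul_zero])
  · rintro (h | h)
    · exact Or.inl h
    · exact Or.inr (mul_ne_zero ha.ne' h)

theorem ins_turn {a : ℝ} (ha : 0 < a) (z : ℂ) : turn ((a : ℂ) * z) = turn z := by
  unfold turn
  rw [Complex.arg_real_mul z ha]

theorem ins_real {a b : ℂ} (ha : a ≠ 0) (h : dt a b = 0) : ∃ c : ℝ, b = (c : ℂ) * a := by
  have hn : 0 < a.re ^ 2 + a.im ^ 2 := by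
    rcases lt_or_eq_of_le (add_nonneg (sq_nonneg a.re) (sq_nonneg a.im)) with h1 | h1
    · exact h1
    · exfalso
      apply ha
      apply Complex.ext
      · change a.re = 0
        nlinarith [sq_nonneg a.re, sq_nonneg a.im]
      · change a.im = 0
        nlinarith [sq_nonneg a.re, sq_nonneg a.im]
  refine ⟨(a.re * b.re + a.im * b.im) / (a.re ^ 2 + a.im ^ 2), ?_⟩
  unfold dt at h
  apply Complex.ext
  · rw [Complex.re_ofReal_mul, div_mul_eq_mul_div, eq_div_iff hn.ne']
    linear_combination (-a.im) * h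
  · rw [Complex.im_ofReal_mul, div_mul_eq_mul_div, eq_div_iff hn.ne']
    linear_combination a.re * h

variable {I : Type} {σ : Equiv.Perm I}

theorem ins_mem_sg (v : I → E) (i : I) (z : ℂ) :
    z ∈ sg σ v i ↔ ∃ t : ℝ, 0 ≤ t ∧ t ≤ 1 ∧ z = (v i).1 + (t : ℂ) * dd σ v i := by
  unfold sg
  rw [segment_eq_image']
  constructor
  · rintro ⟨t, ht, rfl⟩
    refine ⟨t, ht.1, ht.2, ?_⟩
    change (v i).1 + t • ((v (σ i)).1 - (v i).1) = _
    rw [Complex.real_smul]
    rfl
  · rintro ⟨t, h0, h1, rfl⟩
    refine ⟨t, ⟨h0, h1⟩, ?_⟩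
    change (v i).1 + t • _ = _
    rw [Complex.real_smul]
    rfl

theorem ins_dd_ne {v : I → E} (hG : Gen σ v) (i : I) : dd σ v i ≠ 0 := by
  intro hi
  have h := hG.slit i
  rw [hi, div_zero] at h
  exact Complex.slitPlane_ne_zero h rfl

theorem ins_end (v : I → E) (i : I) : (v (σ i)).1 = (v i).1 + dd σ v i := by
  unfold dd
  ring

variable [DecidableEq I]

theorem mem_sg_nv {v : I → E} {i0 : I} {τ : ℝ} (y : Option I) (z : ℂ)
    (h : z ∈ sg (insS σ i0) (nv σ v i0 τ) y) (hs : 0 ≤ scl i0 τ y) :
    ∃ t : ℝ, off τ y ≤ t ∧ t ≤ off τ y + scl i0 τ y ∧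
      z = (v (y.getD i0)).1 + (t : ℂ) * dd σ v (y.getD i0) := by
  obtain ⟨t, ht0, ht1, rfl⟩ := (ins_mem_sg _ _ _).1 h
  refine ⟨off τ y + t * scl i0 τ y, ?_, ?_, ?_⟩
  · have := mul_nonneg ht0 hs
    linarith
  · have := mul_le_mul_of_nonneg_right ht1 hs
    linarith
  · rw [nv_fst, dd_nv]
    push_cast
    ring

theorem ins_off_scl {i0 : I} {τ : ℝ} (h1 : τ < 1) (y : Option I) : off τ y + scl i0 τ y ≤ 1 := by
  cases y with
  | none =>
    change τ + (1 - τ) ≤ 1
    linarith
  | some i =>
    change 0 + (if i = i0 then τ else 1) ≤ 1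
    split_ifs <;> linarith

theorem sg_nv_sub {v : I → E} {i0 : I} {τ : ℝ} (h0 : 0 < τ) (h1 : τ < 1) (y : Option I) {z : ℂ}
    (h : z ∈ sg (insS σ i0) (nv σ v i0 τ) y) : z ∈ sg σ v (y.getD i0) := by
  obtain ⟨t, ht0, ht1, e⟩ := mem_sg_nv y z h (scl_pos h0 h1 y).le
  refine (ins_mem_sg _ _ _).2 ⟨t, ?_, ?_, e⟩
  · exact (off_nonneg h0 y).trans ht0
  · exact ht1.trans (ins_off_scl h1 y)

theorem ratio_nv {v : I → E} {i0 : I} {τ : ℝ} (x : Option I) :
    dd (insS σ i0) (nv σ v i0 τ) (insS σ i0 x) / dd (insS σ i0) (nv σ v i0 τ) x =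
      ((scl i0 τ (insS σ i0 x) / scl i0 τ x : ℝ) : ℂ) *
        (dd σ v ((insS σ i0 x).getD i0) / dd σ v (x.getD i0)) := by
  rw [dd_nv, dd_nv, Complex.ofReal_div, mul_div_mul_comm]

/-- The new vertex is not on another edge. -/
theorem ins_not_on {v : I → E} (hG : Gen σ v) {i0 : I} {τ : ℝ} (h0 : 0 < τ) (h1 : τ < 1)
    (hcut : ∀ j, Crs σ v i0 j → par σ v i0 j ≠ τ) {j : I} (hj : j ≠ i0) {t : ℝ} (t0 : 0 ≤ t)
    (t1 : t ≤ 1) (he : (v i0).1 + (τ : ℂ) * dd σ v i0 = (v j).1 + (t : ℂ) * dd σ v j) : False := by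
  have hin : (v i0).1 + (τ : ℂ) * dd σ v i0 ∈ sg σ v i0 :=
    (ins_mem_sg _ _ _).2 ⟨τ, h0.le, h1.le, rfl⟩
  by_cases hd : dt (dd σ v i0) (dd σ v j) = 0
  · obtain ⟨c, hc⟩ := ins_real (ins_dd_ne hG i0) hd
    have hv : (v j).1 = (v i0).1 + ((τ - t * c : ℝ) : ℂ) * dd σ v i0 := by
      push_cast
      rw [hc] at he
      linear_combination (-1 : ℂ) * he
    have hw : (v (σ j)).1 = (v i0).1 + ((τ + (1 - t) * c : ℝ) : ℂ) * dd σ v i0 := by
      rw [ins_end, hc, hv]
      push_cast
      ring
    have hc0 : c ≠ 0 := by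
      rintro rfl
      apply ins_dd_ne hG j
      rw [hc, Complex.ofReal_zero, zero_mul]
    by_cases h2 : σ i0 = j
    · have h3 := hG.slit i0
      rw [h2, hc, mul_div_assoc, div_self (ins_dd_ne hG i0), mul_one, Complex.ofReal_mem_slitPlane]
        at h3
      have h4 : (v j).1 = (v i0).1 + ((1 : ℝ) : ℂ) * dd σ v i0 := by
        rw [← h2, ins_end, Complex.ofReal_one, one_mul]
      rw [hv, add_right_inj] at h4
      have h5 := mul_right_cancel₀ (ins_dd_ne hG i0) h4
      have h6 : τ - t * c = 1 := by exact_mod_cast h5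
      nlinarith
    · by_cases h3 : σ j = i0
      · have h4 := hG.slit j
        rw [h3, hc, ← div_div, div_eq_mul_inv, mul_comm] at h4
        have h4' : dd σ v i0 / ((c : ℂ) * dd σ v i0) = ((c⁻¹ : ℝ) : ℂ) := by
          have := ins_dd_ne hG i0
          have hc' : (c : ℂ) ≠ 0 := by exact_mod_cast hc0
          push_cast
          field_simp
        have h4'' := hG.slit j
        rw [h3, hc, h4', Complex.ofReal_mem_slitPlane, inv_pos] at h4''
        have h5 : (v (σ j)).1 = (v i0).1 + ((0 : ℝ) : ℂ) * dd σ v i0 := by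
          rw [h3, Complex.ofReal_zero, zero_mul, add_zero]
        rw [hw, add_right_inj] at h5
        have h6 := mul_right_cancel₀ (ins_dd_ne hG i0) h5
        have h7 : τ + (1 - t) * c = 0 := by exact_mod_cast h6
        nlinarith
      · -- the four conditions
        have a1 : ¬ (0 ≤ τ - t * c ∧ τ - t * c ≤ 1) := fun k =>
          hG.ver j i0 (Ne.symm hj) h2 ((ins_mem_sg _ _ _).2 ⟨_, k.1, k.2, hv⟩)
        have a2 : ¬ (0 ≤ τ + (1 - t) * c ∧ τ + (1 - t) * c ≤ 1) := fun k =>
          hG.ver (σ j) i0 (fun h => h3 h.symm) (fun h => hj (σ.injective h).symm)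
            ((ins_mem_sg _ _ _).2 ⟨_, k.1, k.2, hw⟩)
        have a3 : ∀ s : ℝ, 0 ≤ s → s ≤ 1 → τ - t * c + s * c ≠ 0 := fun s s0 s1 k =>
          hG.ver i0 j hj h3 ((ins_mem_sg _ _ _).2 ⟨s, s0, s1, by
            rw [hc, hv]
            have : ((τ - t * c : ℝ) : ℂ) + s * c = 0 := by exact_mod_cast k
            linear_combination (-(dd σ v i0)) * this⟩)
        rcases lt_or_gt_of_ne hc0 with hneg | hpos
        · -- c < 0: then τ ≤ position of v j, hence > 1, and v (σ j) is negative
          have b1 : τ ≤ τ - t * c := by nlinarith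
          have b2 : τ + (1 - t) * c ≤ τ := by nlinarith
          have b3 : 1 < τ - t * c := by
            by_contra hcon
            exact a1 ⟨by linarith, by linarith⟩
          have b4 : τ + (1 - t) * c < 0 := by
            by_contra hcon
            exact a2 ⟨by linarith, by linarith⟩
          refine a3 (-(τ - t * c) / c) ?_ ?_ (by field_simp; ring)
          · exact div_nonneg_of_nonpos (by linarith) hneg.le
          · rw [div_le_iff_of_neg hneg]
            linarith
        · have b1 : τ - t * c ≤ τ := by nlinarith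
          have b2 : τ ≤ τ + (1 - t) * c := by nlinarith
          have b3 : τ - t * c < 0 := by
            by_contra hcon
            exact a1 ⟨by linarith, by linarith⟩
          have b4 : 1 < τ + (1 - t) * c := by
            by_contra hcon
            exact a2 ⟨by linarith, by linarith⟩
          refine a3 (-(τ - t * c) / c) ?_ ?_ (by field_simp; ring)
          · exact div_nonneg (by linarith) hpos.le
          · rw [div_le_iff₀ hpos]
            linarith
  · obtain ⟨e1, e2⟩ := par_unique v hd he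
    by_cases hA : Adj σ i0 j
    · rcases hA with h | h | h
      · exact hj h.symm
      · rw [h] at e1 hd
        rw [(ins_par_next hd).1] at e1
        linarith
      · have hd' := dt_ne_symm hd
        rw [h] at e1 hd'
        rw [(ins_par_next hd').2] at e1
        linarith
    · by_cases ht0 : t = 0
      · refine hG.ver j i0 (Ne.symm hj) (fun h => hA (Or.inr (Or.inl h.symm))) ?_
        rw [ht0, Complex.ofReal_zero, zero_mul, add_zero] at he
        rw [← he]
        exact hin
      · by_cases ht1 : t = 1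
        · refine hG.ver (σ j) i0 (fun h => hA (Or.inr (Or.inr h)))
            (fun h => hj (σ.injective h).symm) ?_
          rw [ht1, Complex.ofReal_one, one_mul, ← ins_end] at he
          rw [← he]
          exact hin
        · have c1 : 0 < t := lt_of_le_of_ne t0 (Ne.symm ht0)
          have c2 : t < 1 := lt_of_le_of_ne t1 ht1
          refine hcut j ⟨hA, hd, ?_, ?_, ?_, ?_⟩ e1.symm
          · rw [← e1]; exact h0
          · rw [← e1]; exact h1
          · rw [← e2]; exact c1
          · rw [← e2]; exact c2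

end Aux

variable {I : Type} [Fintype I] [DecidableEq I] {σ : Equiv.Perm I}

/-- The new polygon is generic if the new vertex is not on another edge. -/
theorem gen_ins {v : I → E} (hG : Gen σ v) (i0 : I) {τ : ℝ} (h0 : 0 < τ) (h1 : τ < 1)
    (hcut : ∀ j, Crs σ v i0 j → par σ v i0 j ≠ τ) :
    Gen (insS σ i0) (insV v (AffineMap.lineMap (v i0) (v (σ i0)) τ)) := by
  change Gen (insS σ i0) (nv σ v i0 τ)
  have hs : ∀ x, 0 < scl i0 τ x := fun x => scl_pos h0 h1 x
  refine ⟨fun x => ?_, fun x y hyx hy => ?_, fun x y z hy hz he => ?_, fun x y h => ?_⟩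
  · rw [ratio_nv, ins_slit (div_pos (hs _) (hs _))]
    cases x with
    | none =>
      rw [insS_none]
      exact hG.slit i0
    | some i =>
      by_cases h : i = i0
      · subst h
        rw [insS_some]
        change dd σ v i / dd σ v i ∈ _
        rw [div_self (ins_dd_ne hG i)]
        exact Complex.one_mem_slitPlane
      · rw [insS_ne h]
        exact hG.slit i
  · intro hz
    cases x with
    | none =>
      cases y with
      | none => exact hyx rfl
      | some j =>
        have hj : j ≠ i0 := by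
          rintro rfl
          exact hy (insS_some j)
        obtain ⟨t, t0, t1, e⟩ := (ins_mem_sg _ _ _).1 (sg_nv_sub h0 h1 (some j) hz)
        rw [nv_fst] at e
        exact ins_not_on hG h0 h1 hcut hj t0 t1 e
    | some i =>
      have e0 : (nv σ v i0 τ (some i)).1 = (v i).1 := rfl
      rw [e0] at hz
      by_cases h2 : y.getD i0 = i
      · cases y with
        | none =>
          have h2' : i0 = i := h2
          subst h2'
          obtain ⟨t, t0, t1, e⟩ := mem_sg_nv none _ hz (hs none).le
          have e' : (v i0).1 = (v i0).1 + (t : ℂ) * dd σ v i0 := e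
          have e2 : (t : ℂ) * dd σ v i0 = 0 := by linear_combination (-1 : ℂ) * e'
          rcases mul_eq_zero.1 e2 with e3 | e3
          · have : t = 0 := by exact_mod_cast e3
            have t0' : τ ≤ t := t0
            linarith
          · exact ins_dd_ne hG i0 e3
        | some j =>
          have h2' : j = i := h2
          exact hyx (by rw [h2'])
      · by_cases h3 : σ (y.getD i0) = i
        · cases y with
          | none =>
            rw [insS_none] at hy
            exact hy (congrArg some h3)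
          | some j =>
            by_cases hj : j = i0
            · subst hj
              have h3' : σ j = i := h3
              subst h3'
              obtain ⟨t, t0, t1, e⟩ := mem_sg_nv (some j) _ hz (hs (some j)).le
              have e' : (v (σ j)).1 = (v j).1 + (t : ℂ) * dd σ v j := e
              rw [ins_end] at e'
              have e2 : ((1 - t : ℝ) : ℂ) * dd σ v j = 0 := by
                push_cast
                linear_combination e'
              rcases mul_eq_zero.1 e2 with e3 | e3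
              · have e4 : 1 - t = 0 := by exact_mod_cast e3
                have t1' : t ≤ 0 + (if j = j then τ else 1) := t1
                rw [if_pos rfl] at t1'
                linarith
              · exact ins_dd_ne hG j e3
            · rw [insS_ne hj] at hy
              exact hy (congrArg some h3)
        · exact hG.ver i (y.getD i0) h2 h3 (sg_nv_sub h0 h1 y hz)
  · obtain ⟨hy1, hy2, hy3⟩ := (crs_nv h0 h1 x y).1 hy
    obtain ⟨hz1, hz2, hz3⟩ := (crs_nv h0 h1 x z).1 hz
    rw [par_nv h0 h1 hy1.2.1, par_nv h0 h1 hz1.2.1, div_left_inj' (hs x).ne', sub_left_inj] at he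
    have h4 := hG.trp _ _ _ hy1 hz1 he
    cases y with
    | none =>
      cases z with
      | none => rfl
      | some k =>
        have h5 : i0 = k := h4
        subst h5
        exact absurd (hy3.2 rfl) (hz3.1 rfl).not_gt
    | some j =>
      cases z with
      | none =>
        have h5 : j = i0 := h4
        subst h5
        exact absurd (hz3.2 rfl) (hy3.1 rfl).not_gt
      | some k =>
        have h5 : j = k := h4
        rw [h5]
  · obtain ⟨h2, h3, h4⟩ := (crs_nv h0 h1 x y).1 h
    rw [ht_nv h0 h1 h2.2.1, ht_nv h0 h1 (dt_ne_symm h2.2.1)]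
    exact hG.hgt _ _ h2

/-- No crossing at the new vertex. -/
theorem cut_of_gen {v : I → E} (i0 : I) {τ : ℝ} (h0 : 0 < τ) (h1 : τ < 1)
    (hG : Gen (insS σ i0) (insV v (AffineMap.lineMap (v i0) (v (σ i0)) τ))) (j : I)
    (hj : Crs σ v i0 j) : par σ v i0 j ≠ τ := by
  intro he
  have hne : j ≠ i0 := fun h => hj.1 (Or.inl h.symm)
  have hG' : Gen (insS σ i0) (nv σ v i0 τ) := hG
  refine hG'.ver none (some j) (by simp) (by rw [insS_ne hne]; simp) ?_
  have e1 : sg (insS σ i0) (nv σ v i0 τ) (some j) = sg σ v j := by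
    unfold sg
    rw [insS_ne hne]
    rfl
  rw [e1, nv_fst]
  refine (ins_mem_sg _ _ _).2 ⟨par σ v j i0, hj.2.2.2.2.1.le, hj.2.2.2.2.2.le, ?_⟩
  have h2 := mp_symm v hj.2.1
  unfold mp at h2
  rw [he] at h2
  exact h2

/-- Lifts of the crossings. -/
theorem exists_lift {v : I → E} (i0 : I) {τ : ℝ} (h0 : 0 < τ) (h1 : τ < 1)
    (hcut : ∀ j, Crs σ v i0 j → par σ v i0 j ≠ τ) {i j : I} (h : Crs σ v i j) :
    ∃ x y : Option I, x.getD i0 = i ∧ y.getD i0 = j ∧ Crs (insS σ i0) (nv σ v i0 τ) x y := by
  have key : ∀ a b : I, Crs σ v a b → ∃ x : Option I, x.getD i0 = a ∧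
      (x = some i0 → par σ v i0 b < τ) ∧ (x = none → τ < par σ v i0 b) := by
    intro a b hab
    by_cases ha : a = i0
    · subst ha
      rcases lt_or_gt_of_ne (hcut b hab) with k | k
      · exact ⟨some a, rfl, fun _ => k, fun h => by simp at h⟩
      · exact ⟨none, rfl, fun h => by simp at h, fun _ => k⟩
    · exact ⟨some a, rfl, fun k => absurd (Option.some.inj k) ha, fun k => by simp at k⟩
  obtain ⟨x, hx, hx2⟩ := key i j h
  obtain ⟨y, hy, hy2⟩ := key j i (Crs.symm' h)
  refine ⟨x, y, hx, hy, (crs_nv h0 h1 x y).2 ⟨?_, ?_, ?_⟩⟩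
  · rw [hx, hy]
    exact h
  · rw [hy]
    exact hx2
  · rw [hx]
    exact hy2

/-- A straight vertex can be deleted. -/
theorem gen_del {v : I → E} (i0 : I) {τ : ℝ} (h0 : 0 < τ) (h1 : τ < 1)
    (hG : Gen (insS σ i0) (insV v (AffineMap.lineMap (v i0) (v (σ i0)) τ))) : Gen σ v := by
  have hcut := cut_of_gen i0 h0 h1 hG
  have hG' : Gen (insS σ i0) (nv σ v i0 τ) := hG
  have hs : ∀ x, 0 < scl i0 τ x := fun x => scl_pos h0 h1 x
  refine ⟨fun i => ?_, fun i j hji hj hz => ?_, fun i j k hj hk he => ?_, fun i j h => ?_⟩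
  · by_cases h : i = i0
    · subst h
      have h2 := hG'.slit none
      rw [ratio_nv, ins_slit (div_pos (hs _) (hs _)), insS_none] at h2
      exact h2
    · have h2 := hG'.slit (some i)
      rw [ratio_nv, ins_slit (div_pos (hs _) (hs _)), insS_ne h] at h2
      exact h2
  · by_cases h : j = i0
    · subst h
      obtain ⟨t, t0, t1, e⟩ := (ins_mem_sg _ _ _).1 hz
      rcases le_total t τ with ht | ht
      · refine hG'.ver (some i) (some j) (fun k => hji (Option.some.inj k))
          (by rw [insS_some]; simp) ((ins_mem_sg _ _ _).2 ⟨t / τ, ?_, ?_, ?_⟩)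
        · exact div_nonneg t0 h0.le
        · rw [div_le_one h0]
          exact ht
        · rw [dd_nv]
          have e2 : scl j τ (some j) = τ := if_pos rfl
          rw [e2]
          change (v i).1 = (v j).1 + ((t / τ : ℝ) : ℂ) * ((τ : ℂ) * dd σ v j)
          rw [e]
          have : (τ : ℂ) ≠ 0 := by exact_mod_cast h0.ne'
          push_cast
          field_simp
      · refine hG'.ver (some i) none (by simp)
          (by rw [insS_none]; exact fun k => hj (Option.some.inj k))
          ((ins_mem_sg _ _ _).2 ⟨(t - τ) / (1 - τ), ?_, ?_, ?_⟩)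
        · exact div_nonneg (by linarith) (by linarith)
        · rw [div_le_one (by linarith)]
          linarith
        · rw [dd_nv, nv_fst (τ := τ) (i0 := j) (σ := σ) (v := v) none]
          change (v i).1 = (v j).1 + (τ : ℂ) * dd σ v j +
            (((t - τ) / (1 - τ) : ℝ) : ℂ) * (((1 - τ : ℝ) : ℂ) * dd σ v j)
          rw [e]
          have h3 : ((1 - τ : ℝ) : ℂ) ≠ 0 := by
            have : (1 - τ) ≠ 0 := by linarith
            exact_mod_cast this
          rw [Complex.ofReal_div, ← mul_assoc, div_mul_cancel₀ _ h3]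
          push_cast
          ring
    · refine hG'.ver (some i) (some j) (fun k => hji (Option.some.inj k))
        (by rw [insS_ne h]; exact fun k => hj (Option.some.inj k)) ?_
      have e1 : sg (insS σ i0) (nv σ v i0 τ) (some j) = sg σ v j := by
        unfold sg
        rw [insS_ne h]
        rfl
      rw [e1]
      exact hz
  · -- the same half of the edge i
    have key : ∀ a b : I, Crs σ v a b → ∃ x : Option I, x.getD i0 = a ∧
        (x = some i0 → par σ v i0 b < τ) ∧ (x = none → τ < par σ v i0 b) := by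
      intro a b hab
      by_cases ha : a = i0
      · subst ha
        rcases lt_or_gt_of_ne (hcut b hab) with k | k
        · exact ⟨some a, rfl, fun _ => k, fun h => by simp at h⟩
        · exact ⟨none, rfl, fun h => by simp at h, fun _ => k⟩
      · exact ⟨some a, rfl, fun k => absurd (Option.some.inj k) ha, fun k => by simp at k⟩
    obtain ⟨x, hx, hx2⟩ := key i j hj
    obtain ⟨y, hy, hy2⟩ := key j i (Crs.symm' hj)
    obtain ⟨z, hz, hz2⟩ := key k i (Crs.symm' hk)
    have hx3 : (x = some i0 → par σ v i0 k < τ) ∧ (x = none → τ < par σ v i0 k) := by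
      constructor
      · intro h
        have hi : i = i0 := by
          rw [← hx, h]
          rfl
        have := hx2.1 h
        rw [hi] at he
        rw [← he]
        exact this
      · intro h
        have hi : i = i0 := by
          rw [← hx, h]
          rfl
        have := hx2.2 h
        rw [hi] at he
        rw [← he]
        exact this
    have c1 : Crs (insS σ i0) (nv σ v i0 τ) x y := (crs_nv h0 h1 x y).2
      ⟨by rw [hx, hy]; exact hj, by rw [hy]; exact hx2, by rw [hx]; exact hy2⟩
    have c2 : Crs (insS σ i0) (nv σ v i0 τ) x z := (crs_nv h0 h1 x z).2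
      ⟨by rw [hx, hz]; exact hk, by rw [hz]; exact hx3, by rw [hx]; exact hz2⟩
    have c3 : y = z := by
      refine hG'.trp x y z c1 c2 ?_
      rw [par_nv h0 h1 (by rw [hx, hy]; exact hj.2.1), par_nv h0 h1 (by rw [hx, hz]; exact hk.2.1),
        hx, hy, hz, he]
    rw [← hy, ← hz, c3]
  · obtain ⟨x, y, hx, hy, hc⟩ := exists_lift i0 h0 h1 hcut h
    have h2 := hG'.hgt x y hc
    have hd := ((crs_nv h0 h1 x y).1 hc).1.2.1
    rw [ht_nv h0 h1 hd, ht_nv h0 h1 (dt_ne_symm hd), hx, hy] at h2
    exact h2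

/-- The state sum does not change (Dia.Z_ins). -/
theorem Zh_ins {v : I → E} (i0 : I) {τ : ℝ} (h0 : 0 < τ) (h1 : τ < 1)
    (hG : Gen (insS σ i0) (insV v (AffineMap.lineMap (v i0) (v (σ i0)) τ))) (N : ℕ) :
    Zh (insS σ i0) (insV v (AffineMap.lineMap (v i0) (v (σ i0)) τ)) N = Zh σ v N := by
  have hcut := cut_of_gen i0 h0 h1 hG
  have hG0 := gen_del i0 h0 h1 hG
  have hG' : Gen (insS σ i0) (nv σ v i0 τ) := hG
  have hs : ∀ x, 0 < scl i0 τ x := fun x => scl_pos h0 h1 x
  change Zh (insS σ i0) (nv σ v i0 τ) N = Zh σ v N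
  have hc : ∀ i j, (i, j) ∈ (dia σ v).C ↔ Crs σ v i j ∧ ht σ v j i < ht σ v i j := by
    intro i j
    simp [dia]
  have hc' : ∀ x y, (x, y) ∈ (dia (insS σ i0) (nv σ v i0 τ)).C ↔
      Crs (insS σ i0) (nv σ v i0 τ) x y ∧
        ht (insS σ i0) (nv σ v i0 τ) y x < ht (insS σ i0) (nv σ v i0 τ) x y := by
    intro x y
    simp [dia]
  have hp : ∀ i j, (dia σ v).Pas i j → Crs σ v i j := by
    intro i j h
    rcases h with h | h
    · exact ((hc i j).1 h).1
    · exact Crs.symm' ((hc j i).1 h).1
  have hp' : ∀ x y, (dia (insS σ i0) (nv σ v i0 τ)).Pas x y →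
      Crs (insS σ i0) (nv σ v i0 τ) x y := by
    intro x y h
    rcases h with h | h
    · exact ((hc' x y).1 h).1
    · exact Crs.symm' ((hc' y x).1 h).1
  have key := Dia.Z_ins σ N (dia σ v) (dia (insS σ i0) (nv σ v i0 τ)) (dia_ok hG0) i0 τ
    (by
      intro x y
      rw [hc', hc]
      constructor
      · rintro ⟨h2, h3⟩
        obtain ⟨h4, h5, h6⟩ := (crs_nv h0 h1 x y).1 h2
        rw [ht_nv h0 h1 h4.2.1, ht_nv h0 h1 (dt_ne_symm h4.2.1)] at h3
        exact ⟨⟨h4, h3⟩, h5, h6⟩
      · rintro ⟨⟨h4, h3⟩, h5, h6⟩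
        refine ⟨(crs_nv h0 h1 x y).2 ⟨h4, h5, h6⟩, ?_⟩
        rw [ht_nv h0 h1 h4.2.1, ht_nv h0 h1 (dt_ne_symm h4.2.1)]
        exact h3)
    (fun l hl => hcut l (hp i0 l hl))
    (by
      intro x y z hy hz
      have hy1 := ((crs_nv h0 h1 x y).1 (hp' x y hy)).1.2.1
      have hz1 := ((crs_nv h0 h1 x z).1 (hp' x z hz)).1.2.1
      change par (insS σ i0) (nv σ v i0 τ) x y < par (insS σ i0) (nv σ v i0 τ) x z ↔
        par σ v (x.getD i0) (y.getD i0) < par σ v (x.getD i0) (z.getD i0)
      rw [par_nv h0 h1 hy1, par_nv h0 h1 hz1, div_lt_div_iff_of_pos_right (hs x), sub_lt_sub_iff_right])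
    (by
      intro x y _
      change (if 0 < dt (dd (insS σ i0) (nv σ v i0 τ) x) (dd (insS σ i0) (nv σ v i0 τ) y)
        then (1 : ℝ) else -1) =
        if 0 < dt (dd σ v (x.getD i0)) (dd σ v (y.getD i0)) then (1 : ℝ) else -1
      have : 0 < dt (dd (insS σ i0) (nv σ v i0 τ) x) (dd (insS σ i0) (nv σ v i0 τ) y) ↔
          0 < dt (dd σ v (x.getD i0)) (dd σ v (y.getD i0)) := by
        rw [dt_nv]
        exact mul_pos_iff_of_pos_left (mul_pos (hs x) (hs y))
      by_cases h : 0 < dt (dd σ v (x.getD i0)) (dd σ v (y.getD i0))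
      · rw [if_pos (this.2 h), if_pos h]
      · rw [if_neg (fun k => h (this.1 k)), if_neg h])
    (by
      intro x y _
      change turn (dd (insS σ i0) (nv σ v i0 τ) y / dd (insS σ i0) (nv σ v i0 τ) x) =
        turn (dd σ v (y.getD i0) / dd σ v (x.getD i0))
      rw [dd_nv, dd_nv, mul_div_mul_comm, ← Complex.ofReal_div,
        ins_turn (div_pos (hs y) (hs x))])
    (by
      change turn (dd (insS σ i0) (nv σ v i0 τ) (insS σ i0 (some i0)) /
        dd (insS σ i0) (nv σ v i0 τ) (some i0)) = 0
      rw [ratio_nv, ins_turn (div_pos (hs _) (hs _)), insS_some]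
      change turn (dd σ v i0 / dd σ v i0) = 0
      rw [div_self (ins_dd_ne hG0 i0)]
      unfold turn
      rw [Complex.arg_one, zero_div])
    (by
      change turn (dd (insS σ i0) (nv σ v i0 τ) (insS σ i0 none) /
        dd (insS σ i0) (nv σ v i0 τ) none) = turn (dd σ v (σ i0) / dd σ v i0)
      rw [ratio_nv, ins_turn (div_pos (hs _) (hs _)), insS_none]
      rfl)
    (by
      intro a ha
      change turn (dd (insS σ i0) (nv σ v i0 τ) (insS σ i0 (some a)) /
        dd (insS σ i0) (nv σ v i0 τ) (some a)) = turn (dd σ v (σ a) / dd σ v a)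
      rw [ratio_nv, ins_turn (div_pos (hs _) (hs _)), insS_ne ha]
      rfl)
  unfold Zh Dia.Zh
  rw [key.1, key.2]

end Pool.Agent.Lib.MP_ca0971_gt.OT
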