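import Pool.Agent.Lib.MP_ca0971_gt.OT.Loc.Norm
import Pool.Agent.Lib.MP_ca0971_gt.OT.DiaS

/-!
# Project OT, Cor: relabelling
-/

set_option autoImplicit false

namespace Pool.Agent.Lib.MP_ca0971_gt.OT

open Finset Filter Topology

variable {I : Type} [Fintype I] [DecidableEq I] {σ : Equiv.Perm I}

/-! ### The notions are invariant -/

section

variable {I' : Type} {σ' : Equiv.Perm I'} (e : I ≃ I') (he : ∀ i, e (σ i) = σ' (e i)) {v : I → E}
  {v' : I' → E} (hv : ∀ i, v' (e i) = v i)

include he hv

omit [Fintype I] [DecidableEq I] in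
theorem rei_dd (i : I) : dd σ' v' (e i) = dd σ v i := by
  unfold dd
  rw [← he, hv, hv]

omit [Fintype I] [DecidableEq I] in
theorem rei_par (i j : I) : par σ' v' (e i) (e j) = par σ v i j := by
  unfold par
  rw [rei_dd e he hv, rei_dd e he hv, hv, hv]

omit [Fintype I] [DecidableEq I] in
theorem rei_ht (i j : I) : ht σ' v' (e i) (e j) = ht σ v i j := by
  unfold ht dh
  rw [rei_par e he hv, ← he, hv, hv]

omit [Fintype I] [DecidableEq I] hv in
theorem rei_adj (i j : I) : Adj σ' (e i) (e j) ↔ Adj σ i j := by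
  unfold Adj
  rw [← he, ← he, e.injective.eq_iff, e.injective.eq_iff, e.injective.eq_iff]

omit [Fintype I] [DecidableEq I] in
theorem rei_crs (i j : I) : Crs σ' v' (e i) (e j) ↔ Crs σ v i j := by
  unfold Crs
  rw [rei_adj e he, rei_dd e he hv, rei_dd e he hv, rei_par e he hv, rei_par e he hv]

omit [Fintype I] [DecidableEq I] in
theorem rei_sg (i : I) : sg σ' v' (e i) = sg σ v i := by
  unfold sg
  rw [← he, hv, hv]

omit [Fintype I] [DecidableEq I] in
theorem rei_gen (h : Gen σ v) : Gen σ' v' := by
  refine ⟨fun i' => ?_, fun i' j' h1 h2 => ?_, fun i' j' k' h1 h2 h3 => ?_, fun i' j' h1 => ?_⟩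
  · obtain ⟨i, rfl⟩ := e.surjective i'
    rw [← he, rei_dd e he hv, rei_dd e he hv]
    exact h.slit i
  · obtain ⟨i, rfl⟩ := e.surjective i'
    obtain ⟨j, rfl⟩ := e.surjective j'
    rw [hv, rei_sg e he hv]
    refine h.ver i j (fun h3 => h1 (by rw [h3])) (fun h3 => h2 ?_)
    rw [← he, h3]
  · obtain ⟨i, rfl⟩ := e.surjective i'
    obtain ⟨j, rfl⟩ := e.surjective j'
    obtain ⟨k, rfl⟩ := e.surjective k'
    rw [rei_crs e he hv] at h1 h2
    rw [rei_par e he hv, rei_par e he hv] at h3
    rw [h.trp i j k h1 h2 h3]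
  · obtain ⟨i, rfl⟩ := e.surjective i'
    obtain ⟨j, rfl⟩ := e.surjective j'
    rw [rei_crs e he hv] at h1
    rw [rei_ht e he hv, rei_ht e he hv]
    exact h.hgt i j h1

end

/-- Relabelling of a polygon. -/
theorem Zh_reindex {I' : Type} [Fintype I'] [DecidableEq I'] {σ' : Equiv.Perm I'} (e : I ≃ I')
    (he : ∀ i, e (σ i) = σ' (e i)) {v : I → E} {v' : I' → E} (hv : ∀ i, v' (e i) = v i) (N : ℕ) :
    Zh σ' v' N = Zh σ v N ∧ (Gen σ' v' ↔ Gen σ v) := by
  have hC : ∀ i j, (e i, e j) ∈ (dia σ' v').C ↔ (i, j) ∈ (dia σ v).C := by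
    intro i j
    simp only [dia, mem_filter, mem_univ, true_and]
    rw [rei_crs e he hv, rei_ht e he hv, rei_ht e he hv]
  have hep : ∀ i j, (dia σ' v').ep (e i) (e j) = (dia σ v).ep i j := by
    intro i j
    simp only [dia]
    rw [rei_dd e he hv, rei_dd e he hv]
  have hZ : (dia σ' v').Z σ' N = (dia σ v).Z σ N := by
    refine Dia.Z_reindex σ σ' e he N _ _ hC (rei_par e he hv) (fun i => ?_) hep (fun i j => ?_)
    · simp only [dia]
      rw [← he, rei_dd e he hv, rei_dd e he hv]
    · simp only [dia]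
      rw [rei_dd e he hv, rei_dd e he hv]
  have hw : (dia σ' v').w = (dia σ v).w := by
    unfold Dia.w
    symm
    refine Finset.sum_equiv (e.prodCongr e) (fun x => ?_) (fun x _ => ?_)
    · exact (hC x.1 x.2).symm
    · exact (hep x.1 x.2).symm
  refine ⟨?_, ?_, rei_gen e he hv⟩
  · unfold Zh Dia.Zh
    rw [hZ, hw]
  · refine rei_gen e.symm (fun i => ?_) (fun i => ?_)
    · rw [Equiv.symm_apply_eq, he, Equiv.apply_symm_apply]
    · rw [← hv, Equiv.apply_symm_apply]

/-! ### Insertions -/

omit [Fintype I] in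
theorem rei_none (i0 : I) : insS σ i0 none = some (σ i0) := by
  simp [insS]

omit [Fintype I] in
theorem rei_self (i0 : I) : insS σ i0 (some i0) = none := by
  simp [insS]

omit [Fintype I] in
theorem rei_some {i i0 : I} (h : i ≠ i0) : insS σ i0 (some i) = some (σ i) := by
  have h1 : σ i ≠ σ i0 := fun h2 => h (σ.injective h2)
  simp only [insS, Equiv.Perm.mul_apply, Equiv.optionCongr_apply, Option.map_some]
  exact Equiv.swap_apply_of_ne_of_ne (by simp) (by simpa using h1)

/-- Two insertions, first C1 on the edge i0 and then B1 before it, or first B1 and then C1 after it,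
give the same polygon: exchange none and some none (Zh_reindex). -/
theorem ins_comm {v : I → E} (i0 : I) (B1 C1 : E) (N : ℕ) :
    Zh (insS (insS σ i0) (some i0)) (insV (insV v C1) B1) N =
      Zh (insS (insS σ i0) none) (insV (insV v B1) C1) N ∧
    (Gen (insS (insS σ i0) (some i0)) (insV (insV v C1) B1) ↔
      Gen (insS (insS σ i0) none) (insV (insV v B1) C1)) := by
  have es : ∀ i : I, Equiv.swap (none : Option (Option I)) (some none) (some (some i)) =
      some (some i) := fun i => Equiv.swap_apply_of_ne_of_ne (by simp) (by simp)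
  refine Zh_reindex (Equiv.swap none (some none)) (fun i => ?_) (fun i => ?_) N
  · match i with
    | none =>
      rw [Equiv.swap_apply_left, rei_none, rei_none, es, rei_some (by simp), rei_none]
    | some none =>
      rw [Equiv.swap_apply_right, rei_self, rei_none, rei_self, Equiv.swap_apply_left]
    | some (some i) =>
      rw [es, rei_some (by simp)]
      by_cases h : i = i0
      · subst h
        rw [rei_self, rei_self, Equiv.swap_apply_right]
      · rw [rei_some h, es, rei_some (by simpa using h), rei_some h]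
  · match i with
    | none =>
      rw [Equiv.swap_apply_left]
      rfl
    | some none =>
      rw [Equiv.swap_apply_right]
      rfl
    | some (some i) =>
      rw [es]
      rfl

end Pool.Agent.Lib.MP_ca0971_gt.OT
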